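import Mathlib

set_option autoImplicit false

/-! # The group of `S`-units of a number field is finitely generated -/

namespace Pool.Agent.H577.GS

open NumberField IsDedekindDomain WithZero

variable (K : Type) [Field K] [NumberField K]

/-- the vector of valuations at the places of `S` -/
noncomputable def vals (S : Set (HeightOneSpectrum (𝓞 K))) :
    Additive Kˣ →+ (S → ℤ) where
  toFun x := fun v => WithZero.log (v.1.valuation K ((Additive.toMul x : Kˣ) : K))
  map_zero' := by
    funext v
    simp
  map_add' x y := by
    funext v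
    have h1 : v.1.valuation K ((Additive.toMul x : Kˣ) : K) ≠ 0 := by simp
    have h2 : v.1.valuation K ((Additive.toMul y : Kˣ) : K) ≠ 0 := by simp
    simp [WithZero.log_mul h1 h2]

/-- the units of the ring of integers, in `Additive Kˣ` -/
noncomputable def unitsMap : Additive (𝓞 K)ˣ →+ Additive Kˣ :=
  MonoidHom.toAdditive (Units.map (algebraMap (𝓞 K) K : 𝓞 K →* K))

lemma mem_range_unitsMap (x : Additive Kˣ)
    (hx : ∀ v : HeightOneSpectrum (𝓞 K), v.valuation K ((Additive.toMul x : Kˣ) : K) = 1) :
    ∃ y, unitsMap K y = x := by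
  obtain ⟨a, ha⟩ := HeightOneSpectrum.mem_integers_of_valuation_le_one K
    ((Additive.toMul x : Kˣ) : K) (fun v => (hx v).le)
  obtain ⟨b, hb⟩ := HeightOneSpectrum.mem_integers_of_valuation_le_one K
    (((Additive.toMul x)⁻¹ : Kˣ) : K) (fun v => by
      rw [Units.val_inv_eq_inv_val, map_inv₀, hx v, inv_one])
  have hab : a * b = 1 := by
    apply FaithfulSMul.algebraMap_injective (𝓞 K) K
    rw [map_mul, map_one]
    have ha' : algebraMap (𝓞 K) K a = _ := ha
    have hb' : algebraMap (𝓞 K) K b = _ := hb
    rw [ha', hb']
    simp
  refine ⟨Additive.ofMul ⟨a, b, hab, by rw [mul_comm]; exact hab⟩, ?_⟩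
  apply Additive.toMul.injective
  ext
  exact ha

theorem sUnits_fg (S : Set (HeightOneSpectrum (𝓞 K))) (hS : S.Finite) :
    (S.unit K).FG := by
  classical
  have hfin : Finite S := hS
  rw [Subgroup.fg_iff_add_fg]
  have key : (AddSubgroup.toIntSubmodule (S.unit K).toAddSubgroup).FG := by
    refine Submodule.fg_of_fg_map_of_fg_inf_ker (vals K S).toIntLinearMap ?_ ?_
    · exact IsNoetherian.noetherian _
    · have h1 : (AddSubgroup.toIntSubmodule (S.unit K).toAddSubgroup ⊓
          LinearMap.ker (vals K S).toIntLinearMap) =
          LinearMap.range (unitsMap K).toIntLinearMap := by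
        ext x
        constructor
        · rintro ⟨h1, h2⟩
          have h3 : ∀ v ∉ S, v.valuation K ((Additive.toMul x : Kˣ) : K) = 1 := h1
          have h4 : vals K S x = 0 := h2
          obtain ⟨y, hy⟩ := mem_range_unitsMap K x (fun v => by
            by_cases hv : v ∈ S
            · have h5 := congrFun h4 ⟨v, hv⟩
              have h6 : WithZero.log (v.valuation K ((Additive.toMul x : Kˣ) : K)) = 0 := h5
              have h7 : v.valuation K ((Additive.toMul x : Kˣ) : K) ≠ 0 := by simp
              rw [← WithZero.exp_log h7, h6, WithZero.exp_zero]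
            · exact h3 v hv)
          exact ⟨y, hy⟩
        · rintro ⟨y, rfl⟩
          have h1 : ∀ v : HeightOneSpectrum (𝓞 K), v.valuation K
              ((Additive.toMul (unitsMap K y) : Kˣ) : K) = 1 := by
            intro v
            have h2 : ((Additive.toMul (unitsMap K y) : Kˣ) : K) =
              algebraMap (𝓞 K) K ((Additive.toMul y : (𝓞 K)ˣ) : 𝓞 K) := rfl
            rw [h2, HeightOneSpectrum.valuation_eq_one_iff_notMem]
            intro h3
            exact v.isPrime.ne_top (Ideal.eq_top_of_isUnit_mem _ h3 (Additive.toMul y).isUnit)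
          refine ⟨fun v _ => h1 v, ?_⟩
          change vals K S (unitsMap K y) = 0
          funext v
          change WithZero.log (v.1.valuation K ((Additive.toMul (unitsMap K y) : Kˣ) : K)) = 0
          rw [h1 v.1, WithZero.log_one]
      rw [h1]
      exact Submodule.fg_range _
  rw [Submodule.fg_iff_addSubgroup_fg] at key
  exact key

end Pool.Agent.H577.GS
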