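import Pool.Graph.R_pool_sql_team_seeded_620a6dc7.RAC963.KS.Sols
import Pool.Agent.H577.GS.SUnit

set_option autoImplicit false

/-! # Vanishing sums of `S`-units: two terms have a ratio from a finite set -/

namespace Pool.Agent.H577.GS

open NumberField IsDedekindDomain
open Pool.Agent.Helper259.AbsHt Pool.Agent.Y215.SK

variable (K : Type) [Field K] [NumberField K]

lemma map_fg {G H : Type*} [Group G] [Group H] (P : Subgroup G) (hP : P.FG) (f : G →* H) :
    (P.map f).FG := by
  rw [Subgroup.fg_iff_submonoid_fg] at hP ⊢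
  exact hP.map f

theorem ratios (S : Set (HeightOneSpectrum (𝓞 K))) (hS : S.Finite) {ι : Type} [Fintype ι]
    [DecidableEq ι] [Nonempty ι] (c : ι → K) (hc : ∀ i, c i ≠ 0) :
    ∃ R : Finset K, ∀ x : ι → Kˣ, (∀ i, x i ∈ S.unit K) → ∑ i, c i * (x i : K) = 0 →
      ∃ i j, i ≠ j ∧ (x i : K) / x j ∈ R := by
  classical
  have hφ : Nonempty (K →ₐ[ℚ] Qbar) := ⟨IsAlgClosed.lift⟩
  obtain ⟨φ⟩ := hφ
  have hinj : Function.Injective φ := φ.injective
  set Γ : Subgroup Qbarˣ := (S.unit K).map (Units.map (φ : K →* Qbar)) with hΓ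
  have hΓfg : Γ.FG := map_fg _ (sUnits_fg K S hS) _
  -- for every nonempty set of indices
  have key : ∀ J : Finset ι, J.Nonempty → ∃ R : Finset K, ∀ x : ι → Kˣ, (∀ i, x i ∈ S.unit K) →
      ∑ i ∈ J, c i * (x i : K) = 0 →
      (∀ I ⊆ J, I.Nonempty → ∑ i ∈ I, c i * (x i : K) = 0 → I = J) →
      ∀ i ∈ J, ∀ j ∈ J, (x i : K) / x j ∈ R := by
    intro J hJ
    obtain ⟨n, hn⟩ : ∃ n, J.card = n + 1 := ⟨J.card - 1, by
      have := Finset.card_pos.2 hJ
      omega⟩
    let e : Fin (n + 1) ≃ J := (Finset.equivFinOfCardEq hn).symm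
    obtain ⟨M, hM⟩ := Pool.Agent.RAC963.KS.sols Γ hΓfg n
    obtain ⟨B, hB1, hB⟩ : ∃ B : ℝ, 1 ≤ B ∧ ∀ j : Fin (n + 1), h1 (φ (c (e j))) ≤ B := by
      refine ⟨1 + ∑ j, |h1 (φ (c (e j)))|, ?_, ?_⟩
      · have : 0 ≤ ∑ j, |h1 (φ (c (e j)))| := Finset.sum_nonneg fun _ _ => abs_nonneg _
        linarith
      · intro j
        have h2 : |h1 (φ (c (e j)))| ≤ ∑ j, |h1 (φ (c (e j)))| :=
          Finset.single_le_sum (f := fun j => |h1 (φ (c (e j)))|) (fun _ _ => abs_nonneg _)
            (Finset.mem_univ j)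
        have h3 := le_abs_self (h1 (φ (c (e j))))
        linarith
    obtain ⟨R, -, -, hR⟩ := hM B hB1 (fun j => φ (c (e j)))
      (fun j => by
        rw [Ne, map_eq_zero_iff φ hinj]
        exact hc _) hB
    refine ⟨R.preimage φ (hinj.injOn), fun x hx hsum hmin i hi j hj => ?_⟩
    rw [Finset.mem_preimage, map_div₀]
    have h4 := hR (fun j => Units.map (φ : K →* Qbar) (x (e j))) (fun j => ⟨1, one_pos, by
      rw [pow_one]
      exact ⟨x (e j), hx _, rfl⟩⟩) (by
        have h5 : ∑ j : Fin (n + 1), φ (c (e j)) * φ (x (e j)) =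
            φ (∑ i ∈ J, c i * (x i : K)) := by
          rw [map_sum, ← Finset.sum_coe_sort J (fun i => φ (c i * (x i : K)))]
          rw [← Equiv.sum_comp e]
          exact Finset.sum_congr rfl fun j _ => by rw [map_mul]
        rw [hsum, map_zero] at h5
        exact h5) (by
        intro I hI hI0
        have h6 : ∑ i ∈ I.image (fun j => ((e j : J) : ι)), c i * (x i : K) = 0 := by
          apply hinj
          rw [map_sum, map_zero, Finset.sum_image]
          · rw [← hI0]
            exact Finset.sum_congr rfl fun j _ => by rw [map_mul]; rfl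
          · intro a _ b _ hab
            exact e.injective (Subtype.ext hab)
        have h7 := hmin (I.image (fun j => ((e j : J) : ι))) (by
          intro a ha
          rw [Finset.mem_image] at ha
          obtain ⟨j, -, rfl⟩ := ha
          exact (e j).2) (hI.image _) h6
        rw [Finset.eq_univ_iff_forall]
        intro j
        have h8 : ((e j : J) : ι) ∈ I.image (fun j => ((e j : J) : ι)) := by
          rw [h7]
          exact (e j).2
        rw [Finset.mem_image] at h8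
        obtain ⟨j', hj', h9⟩ := h8
        have h10 : j' = j := e.injective (Subtype.ext h9)
        rwa [h10] at hj') (e.symm ⟨i, hi⟩) (e.symm ⟨j, hj⟩)
    simpa using h4
  choose! R hR using key
  refine ⟨(Finset.univ : Finset (Finset ι)).biUnion R, fun x hx hsum => ?_⟩
  -- a minimal vanishing subsum
  have hex : ∃ J : Finset ι, J.Nonempty ∧ ∑ i ∈ J, c i * (x i : K) = 0 :=
    ⟨Finset.univ, Finset.univ_nonempty, hsum⟩
  obtain ⟨J, ⟨hJ1, hJ2⟩, hJ3⟩ : ∃ J : Finset ι, (J.Nonempty ∧ ∑ i ∈ J, c i * (x i : K) = 0) ∧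
      ∀ I : Finset ι, (I.Nonempty ∧ ∑ i ∈ I, c i * (x i : K) = 0) → J.card ≤ I.card := by
    obtain ⟨J, hJ, hmin⟩ := (Finset.univ.filter (fun J : Finset ι =>
      J.Nonempty ∧ ∑ i ∈ J, c i * (x i : K) = 0)).exists_min_image Finset.card
      (by
        obtain ⟨J, hJ⟩ := hex
        exact ⟨J, by simpa using hJ⟩)
    refine ⟨J, by simpa using hJ, fun I hI => hmin I (by simpa using hI)⟩
  have h1 := hR J hJ1 x hx hJ2 (fun I hIJ hI1 hI2 =>
    Finset.eq_of_subset_of_card_le hIJ (hJ3 I ⟨hI1, hI2⟩))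
  have h2 : 1 < J.card := by
    by_contra h3
    have h4 : J.card = 1 := by
      have := Finset.card_pos.2 hJ1
      omega
    obtain ⟨i, rfl⟩ := Finset.card_eq_one.1 h4
    rw [Finset.sum_singleton] at hJ2
    rcases mul_eq_zero.1 hJ2 with h5 | h5
    · exact hc i h5
    · exact (x i).ne_zero h5
  obtain ⟨i, hi, j, hj, hij⟩ := Finset.one_lt_card.1 h2
  exact ⟨i, j, hij, Finset.mem_biUnion.2 ⟨J, Finset.mem_univ _, h1 i hi j hj⟩⟩

end Pool.Agent.H577.GS
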