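import Mathlib

set_option autoImplicit false

/-! # Solutions of Fermat's equation at the infinite places, in the coordinates
`U = (a + b) / (c + a)`, `V = (b + c) / (c + a)` -/

namespace Pool.Agent.H577.GS

lemma norm_pow_sub (A B : ℂ) (M : ℝ) (hA : ‖A‖ ≤ M) (hB : ‖B‖ ≤ M) (p : ℕ) :
    ‖A ^ p - B ^ p‖ ≤ ‖A - B‖ * (p * M ^ (p - 1)) := by
  have hM : 0 ≤ M := (norm_nonneg _).trans hA
  rw [← Commute.geom_sum₂_mul (Commute.all A B) p, norm_mul, mul_comm]
  gcongr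
  refine (norm_sum_le _ _).trans ?_
  have : ∀ i ∈ Finset.range p, ‖A ^ i * B ^ (p - 1 - i)‖ ≤ M ^ (p - 1) := by
    intro i hi
    rw [Finset.mem_range] at hi
    rw [norm_mul, norm_pow, norm_pow]
    calc ‖A‖ ^ i * ‖B‖ ^ (p - 1 - i) ≤ M ^ i * M ^ (p - 1 - i) := by gcongr
      _ = M ^ (p - 1) := by
        rw [← pow_add]
        congr 1
        omega
  refine (Finset.sum_le_sum this).trans ?_
  simp

lemma exp_le_one_sub {z : ℝ} (h0 : 0 ≤ z) (h1 : z ≤ 1 / 2) : Real.exp (-(2 * z)) ≤ 1 - z := by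
  have h2 : 1 + 2 * z ≤ Real.exp (2 * z) := by
    have := Real.add_one_le_exp (2 * z)
    linarith
  have h3 : 1 ≤ Real.exp (2 * z) * (1 - z) := by
    calc (1 : ℝ) ≤ (1 + 2 * z) * (1 - z) := by nlinarith
      _ ≤ _ := by
        gcongr
        linarith
  rw [Real.exp_neg, inv_le_iff_one_le_mul₀ (Real.exp_pos _), mul_comm]
  exact h3

/-- the scaled equation -/
lemma scaled (p : ℕ) (hp : Odd p) (U V : ℂ) (hU : U ≠ 0)
    (h : (U + 1 - V) ^ p + (U + V - 1) ^ p + (V + 1 - U) ^ p = 0) :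
    (1 + 1 / U - V / U) ^ p + (1 - 1 / U + V / U) ^ p = (1 - 1 / U - V / U) ^ p := by
  have e1 : 1 + 1 / U - V / U = (U + 1 - V) / U := by field_simp
  have e2 : 1 - 1 / U + V / U = (U + V - 1) / U := by
    field_simp
    ring
  have e3 : 1 - 1 / U - V / U = -((V + 1 - U) / U) := by
    field_simp
    ring
  rw [e1, e2, e3, hp.neg_pow, div_pow, div_pow, div_pow]
  have : U ^ p ≠ 0 := pow_ne_zero _ hU
  field_simp
  linear_combination h

theorem arch1 (k l : ℕ) (hk : 1 ≤ k) (hl : 1 ≤ l) (R ε : ℝ) (hR : 0 < R) (hε : 0 < ε) :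
    ∃ P : ℕ, ∀ p : ℕ, P < p → Odd p → ∀ U V : ℂ, ‖U‖ ^ k * ‖V‖ ^ l = R →
      (U + 1 - V) ^ p + (U + V - 1) ^ p + (V + 1 - U) ^ p = 0 → ‖U‖ ≤ ε * p := by
  set η : ℝ := min 1 (ε / 4 * Real.exp (-(6 / ε))) with hη
  have hη0 : 0 < η := lt_min one_pos (by positivity)
  have hη1 : η ≤ 1 := min_le_left _ _
  have hη2 : η ≤ ε / 4 * Real.exp (-(6 / ε)) := min_le_right _ _
  obtain ⟨P, hP⟩ := exists_nat_gt (max (4 / ε) (R / (ε * η ^ l)) + 1 / ε)
  refine ⟨P, fun p hp hodd U V hUV h => ?_⟩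
  have hpP : max (4 / ε) (R / (ε * η ^ l)) + 1 / ε < p := hP.trans (by exact_mod_cast hp)
  have h1ε : 0 < 1 / ε := by positivity
  have hp1 : 4 / ε < p := by
    have := le_max_left (4 / ε) (R / (ε * η ^ l))
    linarith
  have hp2 : R / (ε * η ^ l) < p := by
    have := le_max_right (4 / ε) (R / (ε * η ^ l))
    linarith
  have hp0 : (0 : ℝ) < p := by
    have : 0 < 4 / ε := by positivity
    linarith
  have hεp : 4 < ε * p := by
    rw [div_lt_iff₀ hε] at hp1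
    linarith
  by_contra hlt
  rw [not_le] at hlt
  have hU0 : 0 < ‖U‖ := by
    have : 0 < ε * p := by positivity
    linarith
  have hU : U ≠ 0 := norm_pos_iff.1 hU0
  have hU1 : 1 ≤ ‖U‖ := by linarith
  -- `V` is small
  have hV : ‖V‖ < η := by
    have h1 : ε * p < ‖U‖ ^ k := hlt.trans_le (le_self_pow₀ hU1 (by omega))
    have h2 : ‖V‖ ^ l < η ^ l := by
      by_contra h3
      rw [not_lt] at h3
      have h4 : ε * p * η ^ l < R := by
        rw [← hUV]
        calc ε * p * η ^ l < ‖U‖ ^ k * η ^ l := by gcongr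
          _ ≤ ‖U‖ ^ k * ‖V‖ ^ l := by gcongr
      rw [div_lt_iff₀ (by positivity)] at hp2
      linarith
    exact lt_of_pow_lt_pow_left₀ l hη0.le h2
  have h1 := scaled p hodd U V hU h
  set x := 1 / U with hx
  set y := V / U with hy
  have hnx : ‖x‖ < 1 / (ε * p) := by
    rw [hx, norm_div, norm_one]
    exact one_div_lt_one_div_of_lt (by positivity) hlt
  have hny : ‖y‖ ≤ η / (ε * p) := by
    rw [hy, norm_div]
    exact div_le_div₀ hη0.le hV.le (by positivity) hlt.le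
  set z := ‖x‖ + ‖y‖ with hz
  have hz0 : 0 ≤ z := by positivity
  have hz1 : z ≤ 2 / (ε * p) := by
    have : η / (ε * p) ≤ 1 / (ε * p) := by gcongr
    have h3 : 2 / (ε * p) = 1 / (ε * p) + 1 / (ε * p) := by ring
    rw [h3]
    linarith
  have hz2 : z ≤ 1 / 2 := by
    refine hz1.trans ?_
    rw [div_le_iff₀ (by positivity)]
    linarith
  have hpz : (p : ℝ) * z ≤ 2 / ε := by
    calc (p : ℝ) * z ≤ p * (2 / (ε * p)) := by gcongr
      _ = 2 / ε := by
        field_simp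
  -- lower bound
  have hlow : Real.exp (-(4 / ε)) ≤ ‖(1 + x - y) ^ p‖ := by
    have h2 : 1 - z ≤ ‖1 + x - y‖ := by
      have h3 : (1 : ℂ) = (1 + x - y) + (-x + y) := by ring
      have h4 : ‖(1 : ℂ)‖ ≤ ‖1 + x - y‖ + (‖x‖ + ‖y‖) := by
        calc ‖(1 : ℂ)‖ = ‖(1 + x - y) + (-x + y)‖ := by rw [← h3]
          _ ≤ ‖1 + x - y‖ + ‖-x + y‖ := norm_add_le _ _
          _ ≤ _ := by
            gcongr
            refine (norm_add_le _ _).trans ?_
            rw [norm_neg]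
      rw [norm_one] at h4
      linarith
    rw [norm_pow]
    calc Real.exp (-(4 / ε)) ≤ Real.exp (p * (-(2 * z))) := by
          rw [Real.exp_le_exp]
          have : 4 / ε = 2 * (2 / ε) := by ring
          rw [this]
          nlinarith
      _ = Real.exp (-(2 * z)) ^ p := by rw [Real.exp_nat_mul]
      _ ≤ (1 - z) ^ p := by
        gcongr
        exact exp_le_one_sub hz0 hz2
      _ ≤ _ := by
        gcongr
        linarith
  -- upper bound
  have hup : ‖(1 + x - y) ^ p‖ ≤ 2 * ‖y‖ * (p * (1 + z) ^ (p - 1)) := by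
    have h2 : (1 + x - y) ^ p = (1 - x - y) ^ p - (1 - x + y) ^ p := by
      rw [← h1]
      ring
    rw [h2]
    refine (norm_pow_sub _ _ (1 + z) ?_ ?_ p).trans ?_
    · calc ‖1 - x - y‖ ≤ ‖1 - x‖ + ‖y‖ := norm_sub_le _ _
        _ ≤ ‖(1 : ℂ)‖ + ‖x‖ + ‖y‖ := by
          gcongr
          exact norm_sub_le _ _
        _ = 1 + z := by
          rw [norm_one, hz]
          ring
    · calc ‖1 - x + y‖ ≤ ‖1 - x‖ + ‖y‖ := norm_add_le _ _
        _ ≤ ‖(1 : ℂ)‖ + ‖x‖ + ‖y‖ := by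
          gcongr
          exact norm_sub_le _ _
        _ = 1 + z := by
          rw [norm_one, hz]
          ring
    · gcongr
      have : (1 - x - y) - (1 - x + y) = -(2 * y) := by ring
      rw [this, norm_neg, norm_mul]
      simp
  have hexp : (1 + z) ^ (p - 1) ≤ Real.exp (2 / ε) := by
    calc (1 + z) ^ (p - 1) ≤ (1 + z) ^ p := pow_le_pow_right₀ (by linarith) (by omega)
      _ ≤ Real.exp z ^ p := by
        gcongr
        have := Real.add_one_le_exp z
        linarith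
      _ = Real.exp (p * z) := by rw [Real.exp_nat_mul]
      _ ≤ _ := Real.exp_le_exp.2 hpz
  have hfin : Real.exp (-(4 / ε)) ≤ 2 * (η / ε) * Real.exp (2 / ε) := by
    refine (hlow.trans hup).trans ?_
    calc 2 * ‖y‖ * (p * (1 + z) ^ (p - 1)) ≤ 2 * (η / (ε * p)) * (p * Real.exp (2 / ε)) := by
          gcongr
      _ = _ := by
        field_simp
  have hfin2 : 2 * (η / ε) * Real.exp (2 / ε) ≤ 1 / 2 * Real.exp (-(4 / ε)) := by
    calc 2 * (η / ε) * Real.exp (2 / ε) ≤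
          2 * ((ε / 4 * Real.exp (-(6 / ε))) / ε) * Real.exp (2 / ε) := by gcongr
      _ = 1 / 2 * (Real.exp (-(6 / ε)) * Real.exp (2 / ε)) := by
        field_simp
        ring
      _ = 1 / 2 * Real.exp (-(4 / ε)) := by
        rw [← Real.exp_add]
        congr 2
        ring
  have := Real.exp_pos (-(4 / ε))
  linarith

theorem arch2 (p : ℕ) (hp : Odd p) (κ U : ℂ)
    (h : (U + 1 - κ) ^ p + (U + κ - 1) ^ p + (κ + 1 - U) ^ p = 0) :
    ‖U‖ ≤ 4 * (1 + ‖κ‖) * p := by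
  have hp0 : (0 : ℝ) < p := by exact_mod_cast hp.pos
  by_contra hlt
  rw [not_le] at hlt
  have hκ : 0 ≤ ‖κ‖ := norm_nonneg _
  have hU0 : 0 < ‖U‖ := by
    have : 0 < 4 * (1 + ‖κ‖) * p := by positivity
    linarith
  have hU : U ≠ 0 := norm_pos_iff.1 hU0
  have h1 := scaled p hp U κ hU h
  have key : ∀ t : ℂ, ‖t‖ ≤ 1 + ‖κ‖ → ‖(1 + t / U) ^ p - 1‖ < 1 / 3 := by
    intro t ht
    have ht1 : ‖t / U‖ ≤ 1 / (4 * p) := by
      rw [norm_div, div_le_div_iff₀ hU0 (by positivity)]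
      nlinarith
    have h2 := norm_pow_sub (1 + t / U) 1 (1 + 1 / (4 * p)) (by
      calc ‖1 + t / U‖ ≤ ‖(1 : ℂ)‖ + ‖t / U‖ := norm_add_le _ _
        _ ≤ _ := by
          rw [norm_one]
          gcongr) (by
      rw [norm_one]
      have : 0 ≤ 1 / (4 * (p : ℝ)) := by positivity
      linarith) p
    rw [one_pow, add_sub_cancel_left] at h2
    refine h2.trans_lt ?_
    have h3 : (1 + 1 / (4 * (p : ℝ))) ^ (p - 1) ≤ Real.exp (1 / 4) := by
      have h4 : (1 : ℝ) ≤ 1 + 1 / (4 * (p : ℝ)) := by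
        have : 0 ≤ 1 / (4 * (p : ℝ)) := by positivity
        linarith
      calc (1 + 1 / (4 * (p : ℝ))) ^ (p - 1) ≤ (1 + 1 / (4 * (p : ℝ))) ^ p :=
            pow_le_pow_right₀ h4 (by omega)
        _ ≤ Real.exp (1 / (4 * (p : ℝ))) ^ p := by
          gcongr
          have := Real.add_one_le_exp (1 / (4 * (p : ℝ)))
          linarith
        _ = Real.exp (p * (1 / (4 * (p : ℝ)))) := by rw [Real.exp_nat_mul]
        _ = _ := by
          congr 1
          field_simp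
    have h5 : Real.exp (1 / 4) < 4 / 3 := by
      have h6 : Real.exp (1 / 4) ^ 4 = Real.exp 1 := by
        rw [← Real.exp_nat_mul]
        norm_num
      have h7 := Real.exp_one_lt_d9
      by_contra h8
      rw [not_lt] at h8
      have h9 : (4 / 3 : ℝ) ^ 4 ≤ Real.exp (1 / 4) ^ 4 := by gcongr
      rw [h6] at h9
      norm_num at h9
      linarith
    calc ‖t / U‖ * (p * (1 + 1 / (4 * (p : ℝ))) ^ (p - 1)) ≤
          1 / (4 * p) * (p * Real.exp (1 / 4)) := by gcongr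
      _ = Real.exp (1 / 4) / 4 := by
        field_simp
      _ < 1 / 3 := by linarith
  have e1 : 1 + 1 / U - κ / U = 1 + (1 - κ) / U := by ring
  have e2 : 1 - 1 / U + κ / U = 1 + (κ - 1) / U := by ring
  have e3 : 1 - 1 / U - κ / U = 1 + (-1 - κ) / U := by ring
  rw [e1, e2, e3] at h1
  have b1 := key (1 - κ) ((norm_sub_le _ _).trans (by rw [norm_one]))
  have b2 := key (κ - 1) ((norm_sub_le _ _).trans (by rw [norm_one]; linarith))
  have b3 := key (-1 - κ) ((norm_sub_le _ _).trans (by rw [norm_neg, norm_one]))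
  have h2 : (1 : ℂ) = ((1 + (-1 - κ) / U) ^ p - 1) - ((1 + (1 - κ) / U) ^ p - 1) -
      ((1 + (κ - 1) / U) ^ p - 1) := by
    linear_combination h1
  have h3 : ‖(1 : ℂ)‖ < 1 := by
    calc ‖(1 : ℂ)‖ = ‖((1 + (-1 - κ) / U) ^ p - 1) - ((1 + (1 - κ) / U) ^ p - 1) -
      ((1 + (κ - 1) / U) ^ p - 1)‖ := by rw [← h2]
      _ ≤ ‖((1 + (-1 - κ) / U) ^ p - 1) - ((1 + (1 - κ) / U) ^ p - 1)‖ +
        ‖(1 + (κ - 1) / U) ^ p - 1‖ := norm_sub_le _ _
      _ ≤ ‖(1 + (-1 - κ) / U) ^ p - 1‖ + ‖(1 + (1 - κ) / U) ^ p - 1‖ +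
        ‖(1 + (κ - 1) / U) ^ p - 1‖ := by
        gcongr
        exact norm_sub_le _ _
      _ < 1 := by linarith
  rw [norm_one] at h3
  exact lt_irrefl _ h3

end Pool.Agent.H577.GS
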