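import Mathlib

set_option autoImplicit false

/-! # A plane curve near one of its points, at almost all places -/

namespace Pool.Agent.H577.GS

open NumberField IsDedekindDomain MvPolynomial

section hom

variable {K : Type} [Field K]

lemma eval_smul {G : MvPolynomial (Fin 3) K} {D : ℕ} (hG : G.IsHomogeneous D) (t x y z : K) :
    MvPolynomial.eval ![t * x, t * y, t * z] G = t ^ D * MvPolynomial.eval ![x, y, z] G := by
  rw [MvPolynomial.eval_eq', MvPolynomial.eval_eq', Finset.mul_sum]
  refine Finset.sum_congr rfl fun d hd => ?_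
  have h1 : D = ∑ i, d i := by
    rw [hG.degree_eq_sum_deg_support hd]
    exact Finset.sum_subset (Finset.subset_univ _) (fun i _ hi => by simpa using hi)
  have h2 : D = d 0 + d 1 + d 2 := by
    rw [h1, Fin.sum_univ_three]
  rw [Fin.prod_univ_three, Fin.prod_univ_three, h2]
  simp only [Matrix.cons_val_zero, Matrix.cons_val_one, Matrix.cons_val]
  ring

lemma eq_zero_of_eval [Infinite K] {G : MvPolynomial (Fin 3) K} {D : ℕ} (hG : G.IsHomogeneous D)
    (h : ∀ x z : K, MvPolynomial.eval ![x, 1, z] G = 0) : G = 0 := by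
  have h1 : G * MvPolynomial.X 1 = 0 := by
    apply MvPolynomial.funext
    intro x
    rw [map_mul, map_zero, MvPolynomial.eval_X]
    by_cases hx : x 1 = 0
    · rw [hx, mul_zero]
    · have h2 := eval_smul hG (x 1) (x 0 / x 1) 1 (x 2 / x 1)
      rw [h, mul_zero] at h2
      have h3 : ![x 1 * (x 0 / x 1), x 1 * 1, x 1 * (x 2 / x 1)] = x := by
        funext i
        fin_cases i
        · simp [mul_div_cancel₀ _ hx]
        · simp
        · simp [mul_div_cancel₀ _ hx]
      rw [h3] at h2
      rw [h2, zero_mul]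
  exact (mul_eq_zero.1 h1).resolve_right (MvPolynomial.X_ne_zero _)

/-- the curve in the coordinates `u = a + b`, `c`, where `b = 1` -/
noncomputable def loc (G : MvPolynomial (Fin 3) K) : Polynomial (Polynomial K) :=
  MvPolynomial.eval₂ (Polynomial.C.comp Polynomial.C)
    ![Polynomial.X - 1, 1, Polynomial.C Polynomial.X] G

lemma eval_loc (G : MvPolynomial (Fin 3) K) (u c : K) :
    ((loc G).eval (Polynomial.C u)).eval c = MvPolynomial.eval ![u - 1, 1, c] G := by
  unfold loc
  have h1 : ((Polynomial.evalRingHom c).comp (Polynomial.evalRingHom (Polynomial.C u)))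
      (MvPolynomial.eval₂ (Polynomial.C.comp Polynomial.C)
    ![Polynomial.X - 1, 1, Polynomial.C Polynomial.X] G) = MvPolynomial.eval ![u - 1, 1, c] G := by
    rw [MvPolynomial.hom_eval₂, MvPolynomial.eval, MvPolynomial.coe_eval₂Hom]
    congr 1
    · ext x
      simp
    · funext i
      fin_cases i <;> simp
  exact h1

lemma loc_ne_zero [Infinite K] {G : MvPolynomial (Fin 3) K} {D : ℕ} (hG : G.IsHomogeneous D)
    (hG0 : G ≠ 0) : loc G ≠ 0 := by
  intro h
  apply hG0
  apply eq_zero_of_eval hG
  intro x z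
  have h1 := eval_loc G (x + 1) z
  rw [h] at h1
  simpa using h1.symm

/-- a nonzero polynomial is a power of `X` times one with nonzero constant term -/
lemma exists_factor {A : Type} [CommRing A] (P : Polynomial A) (hP : P ≠ 0) :
    ∃ (n : ℕ) (Q : Polynomial A), P = Polynomial.X ^ n * Q ∧ Q.coeff 0 ≠ 0 := by
  refine ⟨P.natTrailingDegree, ?_⟩
  obtain ⟨Q, hQ⟩ : Polynomial.X ^ P.natTrailingDegree ∣ P :=
    Polynomial.X_pow_dvd_iff.2 fun d hd => Polynomial.coeff_eq_zero_of_lt_natTrailingDegree hd
  refine ⟨Q, hQ, ?_⟩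
  have h1 : P.coeff P.natTrailingDegree = Q.coeff 0 := by
    have h2 := Polynomial.coeff_X_pow_mul Q P.natTrailingDegree 0
    rw [zero_add] at h2
    rw [← h2]
    exact congrArg (fun R : Polynomial A => R.coeff P.natTrailingDegree) hQ
  rw [← h1]
  exact Polynomial.trailingCoeff_nonzero_iff_nonzero.2 hP

end hom

section place

variable {K : Type} [Field K]

lemma eval_le_one {Γ : Type} [LinearOrderedCommGroupWithZero Γ] (v : Valuation K Γ)
    (P : Polynomial K) (hP : ∀ i, v (P.coeff i) ≤ 1) (x : K) (hx : v x ≤ 1) : v (P.eval x) ≤ 1 := by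
  rw [Polynomial.eval_eq_sum_range]
  refine v.map_sum_le fun i _ => ?_
  rw [map_mul, map_pow]
  exact mul_le_one' (hP i) (pow_le_one' hx i)

variable [NumberField K]

lemma finite_gt (x : K) : {v : HeightOneSpectrum (𝓞 K) | 1 < v.valuation K x}.Finite :=
  HeightOneSpectrum.Support.finite (𝓞 K) x

lemma finite_ne (x : K) (hx : x ≠ 0) :
    {v : HeightOneSpectrum (𝓞 K) | v.valuation K x ≠ 1}.Finite := by
  refine ((finite_gt x).union (finite_gt x⁻¹)).subset ?_
  intro v hv
  rcases lt_or_gt_of_ne hv with h | h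
  · right
    change 1 < v.valuation K x⁻¹
    rw [map_inv₀]
    exact (one_lt_inv₀ (by
      rw [zero_lt_iff]
      exact (Valuation.ne_zero_iff _).2 hx)).2 h
  · left
    exact h

lemma finite_coeff (P : Polynomial K) :
    {v : HeightOneSpectrum (𝓞 K) | ∃ i, 1 < v.valuation K (P.coeff i)}.Finite := by
  have h1 : {v : HeightOneSpectrum (𝓞 K) | ∃ i, 1 < v.valuation K (P.coeff i)} ⊆
      ⋃ i ∈ P.support, {v : HeightOneSpectrum (𝓞 K) | 1 < v.valuation K (P.coeff i)} := by
    rintro v ⟨i, hi⟩
    rw [Set.mem_iUnion₂]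
    refine ⟨i, ?_, hi⟩
    rw [Polynomial.mem_support_iff]
    intro h
    rw [h, map_zero] at hi
    exact absurd hi (by simp)
  exact (Set.Finite.biUnion (Finset.finite_toSet _) fun i _ => finite_gt _).subset h1

/-- At almost all places a plane curve has no points very near the line `a + b = 0` in the direction
of `c = 0`. -/
theorem avoid (G : MvPolynomial (Fin 3) K) (D : ℕ) (hG : G.IsHomogeneous D) (hG0 : G ≠ 0) :
    ∃ (S : Set (HeightOneSpectrum (𝓞 K))) (N : ℕ), S.Finite ∧ ∀ v ∉ S, ∀ u c : K, u ≠ 0 → c ≠ 0 →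
      v.valuation K c < 1 → v.valuation K u ≤ v.valuation K c ^ N →
      MvPolynomial.eval ![u - 1, 1, c] G ≠ 0 := by
  classical
  have : Infinite K := Infinite.of_injective (algebraMap ℚ K) (algebraMap ℚ K).injective
  obtain ⟨m, Q, hQ, hQ0⟩ := exists_factor (loc G) (loc_ne_zero hG hG0)
  obtain ⟨n, R, hR, hR0⟩ := exists_factor (Q.coeff 0) hQ0
  set r := R.coeff 0 with hr
  refine ⟨{v | v.valuation K r ≠ 1} ∪ {v | ∃ i, 1 < v.valuation K (R.divX.coeff i)} ∪
    ⋃ j ∈ Q.divX.support, {v | ∃ i, 1 < v.valuation K ((Q.divX.coeff j).coeff i)}, n + 1, ?_, ?_⟩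
  · refine ((finite_ne r hR0).union (finite_coeff _)).union ?_
    exact Set.Finite.biUnion (Finset.finite_toSet _) fun i _ => finite_coeff _
  · intro v hv u c hu hc hvc hvu h
    simp only [Set.mem_union, not_or] at hv
    obtain ⟨⟨hv1, hv2⟩, hv3⟩ := hv
    have hv1' : v.valuation K r = 1 := by
      by_contra h5
      exact hv1 h5
    have hv2' : ∀ i, v.valuation K (R.divX.coeff i) ≤ 1 := by
      intro i
      by_contra h5
      exact hv2 ⟨i, not_le.1 h5⟩
    have hv3' : ∀ j i, v.valuation K ((Q.divX.coeff j).coeff i) ≤ 1 := by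
      intro j i
      by_cases hj : j ∈ Q.divX.support
      · by_contra h5
        exact hv3 (Set.mem_iUnion₂.2 ⟨j, hj, ⟨i, not_le.1 h5⟩⟩)
      · rw [Polynomial.mem_support_iff, not_not] at hj
        rw [hj]
        simp
    have hvc0 : 0 < v.valuation K c := by
      rw [zero_lt_iff]
      exact (Valuation.ne_zero_iff _).2 hc
    have hvu1 : v.valuation K u ≤ 1 := hvu.trans (pow_le_one' hvc.le _)
    rw [← eval_loc, hQ] at h
    simp only [Polynomial.eval_mul, Polynomial.eval_pow, Polynomial.eval_X, Polynomial.eval_C]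
      at h
    have h1 : (Q.eval (Polynomial.C u)).eval c = 0 := by
      rcases mul_eq_zero.1 h with h2 | h2
      · exact absurd h2 (pow_ne_zero _ hu)
      · exact h2
    have h2 : (Q.eval (Polynomial.C u)).eval c =
        (Q.divX.eval (Polynomial.C u)).eval c * u + (Q.coeff 0).eval c := by
      conv_lhs => rw [← Polynomial.divX_mul_X_add Q]
      simp
    have h3 : (Q.coeff 0).eval c = c ^ n * (R.divX.eval c * c + r) := by
      rw [hR]
      conv_lhs => rw [← Polynomial.divX_mul_X_add R]
      simp [hr]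
    have h4 : v.valuation K ((Q.divX.eval (Polynomial.C u)).eval c) ≤ 1 := by
      have h5 : (Q.divX.eval (Polynomial.C u)).eval c =
          ∑ j ∈ Finset.range (Q.divX.natDegree + 1), (Q.divX.coeff j).eval c * u ^ j := by
        rw [Polynomial.eval_eq_sum_range (p := Q.divX), Polynomial.eval_finsetSum]
        simp
      rw [h5]
      refine Valuation.map_sum_le _ fun j _ => ?_
      rw [map_mul, map_pow]
      exact mul_le_one' (eval_le_one _ _ (hv3' j) _ hvc.le) (pow_le_one' hvu1 j)
    have h5 : v.valuation K (R.divX.eval c * c + r) = 1 := by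
      rw [← hv1']
      apply Valuation.map_add_eq_of_lt_right
      rw [map_mul, hv1']
      calc v.valuation K (R.divX.eval c) * v.valuation K c ≤ 1 * v.valuation K c := by
            gcongr
            exact eval_le_one _ _ hv2' _ hvc.le
        _ < 1 := by rwa [one_mul]
    have h6 : c ^ n * (R.divX.eval c * c + r) = - ((Q.divX.eval (Polynomial.C u)).eval c * u) := by
      rw [← h3, eq_neg_iff_add_eq_zero, add_comm, ← h2, h1]
    have h7 := congrArg (v.valuation K) h6
    rw [map_mul, map_pow, h5, mul_one, Valuation.map_neg, map_mul] at h7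
    have h8 : v.valuation K c ^ n ≤ v.valuation K c ^ (n + 1) := by
      rw [h7]
      calc _ ≤ 1 * v.valuation K u := by gcongr
        _ ≤ _ := by rwa [one_mul]
    have h9 : v.valuation K c ^ (n + 1) < v.valuation K c ^ n :=
      pow_lt_pow_right_of_lt_one₀ hvc0 hvc (Nat.lt_succ_self n)
    exact absurd h8 (not_le.2 h9)

end place

end Pool.Agent.H577.GS
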