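import Pool.Graph.R_seed8.H340R2.LW

set_option autoImplicit false

/-! # The limit of the equation for coordinates proportional to the exponent, and the theorem of
Lindemann and Weierstrass -/

namespace Pool.Agent.H577.GS

open Filter Topology

lemma lw (κ m : ℂ) (hκ : IsAlgebraic ℚ κ) (hm : IsAlgebraic ℚ m) (hκ0 : κ ≠ 0) (hm0 : m ≠ 0) :
    Complex.exp (2 / m) + Complex.exp (2 * κ / m) ≠ 1 := by
  intro h
  have h2 : IsAlgebraic ℚ (2 : ℂ) := isAlgebraic_natCast 2
  have h4 : IsAlgebraic ℚ (4 : ℂ) := isAlgebraic_natCast 4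
  have hr : IsAlgebraic ℚ (2 / m) := by
    rw [div_eq_mul_inv]
    exact h2.mul hm.inv
  have hs : IsAlgebraic ℚ (2 * κ / m) := by
    rw [div_eq_mul_inv]
    exact (h2.mul hκ).mul hm.inv
  by_cases h1 : κ = 1
  · have hs' : IsAlgebraic ℚ (4 / m) := by
      rw [div_eq_mul_inv]
      exact h4.mul hm.inv
    have := Pool.Agent.H340R2.LW.exp_linearIndependent_aux (2 / m) (4 / m) (-1) 2 0 hr hs'
      (div_ne_zero two_ne_zero hm0) (div_ne_zero (by norm_num : (4 : ℂ) ≠ 0) hm0) (by
        intro h3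
        field_simp at h3
        norm_num at h3) (isAlgebraic_one.neg) h2 isAlgebraic_zero (by
        rw [h1, mul_one] at h
        linear_combination h)
    exact absurd this.2.1 two_ne_zero
  · have := Pool.Agent.H340R2.LW.exp_linearIndependent_aux (2 / m) (2 * κ / m) (-1) 1 1 hr hs
      (div_ne_zero two_ne_zero hm0) (div_ne_zero (mul_ne_zero two_ne_zero hκ0) hm0) (by
        intro h3
        apply h1
        field_simp at h3
        exact h3.symm) (isAlgebraic_one.neg) isAlgebraic_one isAlgebraic_one (by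
        linear_combination h)
    exact absurd this.2.1 one_ne_zero

theorem limit (κ m : ℂ) (hκ : IsAlgebraic ℚ κ) (hm : IsAlgebraic ℚ m) (hκ0 : κ ≠ 0)
    (hm0 : m ≠ 0) :
    ∀ᶠ p : ℕ in atTop, (p * m - 2 * κ) ^ p + (p * m - 2) ^ p ≠ (p * m - 2 * κ - 2) ^ p := by
  have t1 := Complex.tendsto_one_add_div_pow_exp (-(2 * κ / m))
  have t2 := Complex.tendsto_one_add_div_pow_exp (-(2 / m))
  have t3 := Complex.tendsto_one_add_div_pow_exp (-(2 * κ / m) - 2 / m)
  have t := (t1.add t2).sub t3
  have hL : Complex.exp (-(2 * κ / m)) + Complex.exp (-(2 / m)) -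
      Complex.exp (-(2 * κ / m) - 2 / m) ≠ 0 := by
    intro h
    apply lw κ m hκ hm hκ0 hm0
    have h1 : Complex.exp (2 * κ / m + 2 / m) * (Complex.exp (-(2 * κ / m)) +
        Complex.exp (-(2 / m)) - Complex.exp (-(2 * κ / m) - 2 / m)) = 0 := by
      rw [h, mul_zero]
    rw [mul_sub, mul_add, ← Complex.exp_add, ← Complex.exp_add, ← Complex.exp_add] at h1
    have e1 : 2 * κ / m + 2 / m + -(2 * κ / m) = 2 / m := by ring
    have e2 : 2 * κ / m + 2 / m + -(2 / m) = 2 * κ / m := by ring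
    have e3 : 2 * κ / m + 2 / m + (-(2 * κ / m) - 2 / m) = 0 := by ring
    rw [e1, e2, e3, Complex.exp_zero] at h1
    linear_combination h1
  have ev := t.eventually_ne hL
  filter_upwards [ev, eventually_gt_atTop 0] with p hp hp0 h
  apply hp
  have hpc : (p : ℂ) ≠ 0 := by exact_mod_cast hp0.ne'
  have e1 : 1 + -(2 * κ / m) / p = (p * m - 2 * κ) / (p * m) := by
    field_simp
    ring
  have e2 : 1 + -(2 / m) / p = (p * m - 2) / (p * m) := by
    field_simp
    ring
  have e3 : 1 + (-(2 * κ / m) - 2 / m) / p = (p * m - 2 * κ - 2) / (p * m) := by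
    field_simp
    ring
  rw [e1, e2, e3, div_pow, div_pow, div_pow, ← h]
  ring

end Pool.Agent.H577.GS
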