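import Pool.Agent.H577.GS.Unram
import Pool.Agent.H577.GS.Avoid

set_option autoImplicit false

/-! # Solutions of Fermat's equation at the finite places -/

namespace Pool.Agent.H577.GS

open NumberField IsDedekindDomain WithZero

/-- the expansion of `(u - 1) ^ p + 1` -/
lemma expand {A : Type} [CommRing A] (p : ℕ) (hp : p.Prime) (hp2 : p ≠ 2) (u : A) :
    ∃ r : A, (u - 1) ^ p + 1 = u * (u ^ (p - 1) + p * (1 + u * r)) := by
  have hodd : Odd p := hp.odd_of_ne_two hp2
  have h3 : 3 ≤ p := by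
    have := hp.two_le
    omega
  have h1 := add_pow_prime_eq hp u (-1 : A)
  have h2 : Finset.Ioo 0 p = insert 1 (Finset.Ioo 1 p) := by
    ext k
    simp only [Finset.mem_insert, Finset.mem_Ioo]
    omega
  have h4 : ∑ k ∈ Finset.Ioo 0 p, u ^ (k - 1) * (-1 : A) ^ (p - k - 1) * ↑(p.choose k / p) =
      -1 + u * ∑ k ∈ Finset.Ioo 1 p, u ^ (k - 2) * (-1 : A) ^ (p - k - 1) * ↑(p.choose k / p) := by
    rw [h2, Finset.sum_insert (by simp), Finset.mul_sum]
    congr 1
    · have h5 : Odd (p - 1 - 1) := by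
        obtain ⟨m, hm⟩ := hodd
        exact ⟨m - 1, by omega⟩
      rw [h5.neg_one_pow]
      simp [Nat.div_self hp.pos]
    · refine Finset.sum_congr rfl fun k hk => ?_
      rw [Finset.mem_Ioo] at hk
      have h6 : u ^ (k - 1) = u * u ^ (k - 2) := by
        rw [← pow_succ']
        congr 1
        omega
      rw [h6]
      ring
  rw [h4] at h1
  refine ⟨-∑ k ∈ Finset.Ioo 1 p, u ^ (k - 2) * (-1 : A) ^ (p - k - 1) * ↑(p.choose k / p), ?_⟩
  have h7 : (-1 : A) ^ p = -1 := hodd.neg_one_pow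
  have h8 : u ^ p = u * u ^ (p - 1) := by
    rw [← pow_succ']
    congr 1
    omega
  rw [sub_eq_add_neg, h1, h7, h8]
  ring

section val

variable {K : Type} [Field K]

lemma expand_val {Γ : Type} [LinearOrderedCommGroupWithZero Γ] (v : Valuation K Γ)
    (p : ℕ) (hp : p.Prime) (hp2 : p ≠ 2) (u : K) (hu : v u ≤ 1) :
    ∃ r : K, v r ≤ 1 ∧ (u - 1) ^ p + 1 = u * (u ^ (p - 1) + p * (1 + u * r)) := by
  obtain ⟨r, hr⟩ := expand (A := v.integer) p hp hp2 ⟨u, hu⟩
  refine ⟨r, r.2, ?_⟩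
  have := congrArg (Subtype.val) hr
  push_cast at this
  exact this

lemma val_pow_sub_one {Γ : Type} [LinearOrderedCommGroupWithZero Γ] (v : Valuation K Γ)
    (t : K) (ht : v (t - 1) < 1) (n : ℕ) : v (t ^ n - 1) < 1 := by
  have h1 : v t ≤ 1 := by
    have : t = (t - 1) + 1 := by ring
    rw [this]
    exact (v.map_add _ _).trans (max_le ht.le (by simp))
  induction n with
  | zero => simp
  | succ n ih =>
    have : t ^ (n + 1) - 1 = t * (t ^ n - 1) + (t - 1) := by ring
    rw [this]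
    refine v.map_add_lt ?_ ht
    rw [map_mul]
    calc v t * v (t ^ n - 1) ≤ 1 * v (t ^ n - 1) := by gcongr
      _ < 1 := by rwa [one_mul]

/-- no strict domination among `a + b`, `b + c`, `c + a` -/
lemma noDom [CharZero K] {Γ : Type} [LinearOrderedCommGroupWithZero Γ] (v : Valuation K Γ)
    (p : ℕ) (hp : Odd p) (a b c : K) (h : a ^ p + b ^ p + c ^ p = 0)
    (h1 : v (b + c) < v (a + b)) (h2 : v (c + a) < v (a + b)) : False := by
  have hu : a + b ≠ 0 := by
    intro h3
    rw [h3, map_zero] at h1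
    exact absurd h1 (by simp)
  have hvu : 0 < v (a + b) := by
    rw [zero_lt_iff]
    exact (Valuation.ne_zero_iff _).2 hu
  set u := a + b with hu'
  set x := ((c + a) - (b + c)) / u with hx
  set y := ((c + a) + (b + c)) / u with hy
  have hvx : v x < 1 := by
    rw [hx, map_div₀, div_lt_one₀ hvu]
    exact v.map_sub_lt h2 h1
  have hvy : v y < 1 := by
    rw [hy, map_div₀, div_lt_one₀ hvu]
    exact v.map_add_lt h2 h1
  have ha : 2 * a / u = 1 + x := by
    rw [hx]
    field_simp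
    rw [hu']
    ring
  have hb : 2 * b / u = 1 - x := by
    rw [hx]
    field_simp
    rw [hu']
    ring
  have hc : 2 * c / u = -(1 - y) := by
    rw [hy]
    field_simp
    rw [hu']
    ring
  have h3 : (1 + x) ^ p + (1 - x) ^ p + (-(1 - y)) ^ p = 0 := by
    rw [← ha, ← hb, ← hc]
    have : (2 * a / u) ^ p + (2 * b / u) ^ p + (2 * c / u) ^ p =
        (2 / u) ^ p * (a ^ p + b ^ p + c ^ p) := by
      rw [div_pow, div_pow, div_pow, div_pow, mul_pow, mul_pow, mul_pow]
      ring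
    rw [this, h, mul_zero]
  rw [hp.neg_pow] at h3
  have h4 : (1 : K) = -(((1 + x) ^ p - 1) + ((1 - x) ^ p - 1) - ((1 - y) ^ p - 1)) := by
    linear_combination h3
  have h5 : v (((1 + x) ^ p - 1) + ((1 - x) ^ p - 1) - ((1 - y) ^ p - 1)) < 1 := by
    refine v.map_sub_lt (v.map_add_lt ?_ ?_) ?_
    · exact val_pow_sub_one v _ (by simpa using hvx) p
    · exact val_pow_sub_one v _ (by simpa using hvx) p
    · exact val_pow_sub_one v _ (by simpa using hvy) p
  have h6 := congrArg v h4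
  rw [Valuation.map_neg, map_one] at h6
  rw [← h6] at h5
  exact lt_irrefl _ h5

/-- near the point `(-1 : 1 : 0)` -/
lemma near (v : Valuation K ℤᵐ⁰) (p : ℕ) (hp : p.Prime) (hp2 : p ≠ 2)
    (hvp : exp (-1) ≤ v (p : K)) (hvp1 : v (p : K) ≤ 1) (a c : K) (hc : c ≠ 0)
    (h : a ^ p + 1 + c ^ p = 0) (ha : v (a + 1) < 1) :
    v c < 1 ∧ v (a + 1) ≤ v c ^ (p - 1) := by
  have h3 : 3 ≤ p := by
    have := hp.two_le
    omega
  obtain ⟨r, hr, hr1⟩ := expand_val v p hp hp2 (a + 1) ha.le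
  rw [add_sub_cancel_right] at hr1
  have hvr : v (1 + (a + 1) * r) = 1 := by
    rw [Valuation.map_one_add_of_lt]
    rw [map_mul]
    calc v (a + 1) * v r ≤ v (a + 1) * 1 := by gcongr
      _ < 1 := by rwa [mul_one]
  have hle : v (a + 1) ≤ exp (-1) := le_exp_neg_one ha
  have h4 : v ((a + 1) ^ (p - 1)) < v (p * (1 + (a + 1) * r)) := by
    rw [map_mul, hvr, mul_one, map_pow]
    calc v (a + 1) ^ (p - 1) ≤ v (a + 1) ^ 2 := pow_le_pow_right_of_le_one' ha.le (by omega)
      _ ≤ exp (-1) ^ 2 := by gcongr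
      _ < exp (-1) := by
        rw [← exp_nsmul]
        exact exp_lt_exp.2 (by norm_num)
      _ ≤ _ := hvp
  have h5 : v ((a + 1) ^ (p - 1) + p * (1 + (a + 1) * r)) = v (p : K) := by
    rw [Valuation.map_add_eq_of_lt_right _ h4, map_mul, hvr, mul_one]
  have h6 : v c ^ p = v (a + 1) * v (p : K) := by
    rw [← map_pow, ← h5, ← map_mul, ← hr1, ← Valuation.map_neg v (c ^ p)]
    congr 1
    linear_combination -h
  have hc1 : v c < 1 := by
    by_contra h7
    rw [not_lt] at h7
    have h8 : 1 ≤ v c ^ p := one_le_pow₀ h7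
    rw [h6] at h8
    have h9 : v (a + 1) * v (p : K) < 1 := by
      calc v (a + 1) * v (p : K) ≤ v (a + 1) * 1 := by gcongr
        _ < 1 := by rwa [mul_one]
    exact absurd h8 (not_le.2 h9)
  refine ⟨hc1, ?_⟩
  have hc0 : 0 < v c := by
    rw [zero_lt_iff]
    exact (Valuation.ne_zero_iff _).2 hc
  have h7 : v c ≤ v (p : K) := (le_exp_neg_one hc1).trans hvp
  have h8 : v (a + 1) * v c ≤ v c ^ (p - 1) * v c := by
    calc v (a + 1) * v c ≤ v (a + 1) * v (p : K) := by gcongr
      _ = v c ^ p := h6.symm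
      _ = v c ^ (p - 1) * v c := by
        rw [← pow_succ]
        congr 1
        omega
  exact le_of_mul_le_mul_right h8 hc0

/-- the sum of the three numbers is divisible by `p` -/
lemma sum_le (v : Valuation K ℤᵐ⁰) (p : ℕ) (hp : p.Prime)
    (hvp : exp (-1) ≤ v (p : K)) (a b c : K) (ha : v a ≤ 1) (hb : v b ≤ 1)
    (hc : v c ≤ 1) (h : a ^ p + b ^ p + c ^ p = 0) (hvp1 : v (p : K) < 1) :
    v (a + b + c) ≤ v (p : K) := by
  have key : ∀ x y : K, v x ≤ 1 → v y ≤ 1 → v ((x + y) ^ p - (x ^ p + y ^ p)) ≤ v (p : K) := by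
    intro x y hx hy
    obtain ⟨r, hr⟩ := exists_add_pow_prime_eq hp (⟨x, hx⟩ : v.integer) ⟨y, hy⟩
    have h1 := congrArg (Subtype.val) hr
    push_cast at h1
    rw [h1, add_sub_cancel_left, map_mul, map_mul, map_mul]
    have hr1 : v (r : K) ≤ 1 := r.2
    calc v (p : K) * v x * v y * v (r : K) ≤ v (p : K) * 1 * 1 * 1 := by gcongr
      _ = v (p : K) := by simp
  have h1 := key a b ha hb
  have h2 := key (a + b) c ((v.map_add _ _).trans (max_le ha hb)) hc
  have h3 : v ((a + b + c) ^ p) ≤ v (p : K) := by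
    have : (a + b + c) ^ p = ((a + b + c) ^ p - ((a + b) ^ p + c ^ p)) +
        ((a + b) ^ p - (a ^ p + b ^ p)) := by
      linear_combination h
    rw [this]
    exact (v.map_add _ _).trans (max_le h2 h1)
  have h4 : v (a + b + c) < 1 := by
    by_contra h5
    rw [not_lt] at h5
    rw [map_pow] at h3
    exact absurd (lt_of_le_of_lt h3 hvp1) (not_lt.2 (one_le_pow₀ h5))
  exact (le_exp_neg_one h4).trans hvp

end val

end Pool.Agent.H577.GS
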