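import Pool.Agent.H577.GS.Ratio

set_option autoImplicit false

/-! # The points with `S`-unit coordinates on a plane curve satisfy binomial equations -/

namespace Pool.Agent.H577.GS

open NumberField IsDedekindDomain

variable (K : Type) [Field K] [NumberField K]

theorem relations (S : Set (HeightOneSpectrum (𝓞 K))) (hS : S.Finite)
    (H : MvPolynomial (Fin 2) K) (hH : H ≠ 0) :
    ∃ E : Finset ((Fin 2 →₀ ℕ) × (Fin 2 →₀ ℕ) × K), (∀ e ∈ E, e.1 ≠ e.2.1) ∧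
      ∀ U V : Kˣ, U ∈ S.unit K → V ∈ S.unit K →
        MvPolynomial.eval ![(U : K), (V : K)] H = 0 →
        ∃ e ∈ E, (U : K) ^ (e.1 0) * (V : K) ^ (e.1 1) =
          e.2.2 * ((U : K) ^ (e.2.1 0) * (V : K) ^ (e.2.1 1)) := by
  classical
  have hne : Nonempty H.support := by
    obtain ⟨m, hm⟩ := MvPolynomial.support_nonempty.2 hH
    exact ⟨⟨m, hm⟩⟩
  obtain ⟨R, hR⟩ := ratios K S hS (ι := H.support) (fun i => H.coeff i.1)
    (fun i => MvPolynomial.mem_support_iff.1 i.2)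
  refine ⟨((H.support ×ˢ H.support ×ˢ R).filter (fun e => e.1 ≠ e.2.1)), ?_, ?_⟩
  · intro e he
    exact (Finset.mem_filter.1 he).2
  · intro U V hU hV hUV
    have hsum : ∑ i : H.support, H.coeff i.1 * ((U ^ (i.1 0) * V ^ (i.1 1) : Kˣ) : K) = 0 := by
      rw [← hUV, MvPolynomial.eval_eq', ← Finset.sum_coe_sort H.support]
      refine Finset.sum_congr rfl fun i _ => ?_
      rw [Fin.prod_univ_two]
      simp
    obtain ⟨i, j, hij, h1⟩ := hR (fun i => U ^ (i.1 0) * V ^ (i.1 1))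
      (fun i => mul_mem (pow_mem hU _) (pow_mem hV _)) hsum
    refine ⟨(i.1, j.1, ((U ^ (i.1 0) * V ^ (i.1 1) : Kˣ) : K) /
      ((U ^ (j.1 0) * V ^ (j.1 1) : Kˣ) : K)), ?_, ?_⟩
    · rw [Finset.mem_filter]
      refine ⟨?_, fun h => hij (Subtype.ext h)⟩
      simp only [Finset.mem_product]
      exact ⟨i.2, j.2, h1⟩
    · have h2 : ((U ^ (j.1 0) * V ^ (j.1 1) : Kˣ) : K) ≠ 0 := Units.ne_zero _
      have h3 : ((U ^ (i.1 0) * V ^ (i.1 1) : Kˣ) : K) /
        ((U ^ (j.1 0) * V ^ (j.1 1) : Kˣ) : K) * ((U ^ (j.1 0) * V ^ (j.1 1) : Kˣ) : K) =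
        ((U ^ (i.1 0) * V ^ (i.1 1) : Kˣ) : K) := div_mul_cancel₀ _ h2
      simpa using h3.symm

end Pool.Agent.H577.GS
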