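import Pool.Agent.H577.GS.Local

set_option autoImplicit false

/-! # On a fixed curve the three sums of two coordinates are units at almost all places -/

namespace Pool.Agent.H577.GS

open NumberField IsDedekindDomain WithZero

/-- the largest of three values -/
def top3 {Γ : Type} [LinearOrder Γ] (x y z : Γ) : Γ := max x (max y z)

lemma le_top3_1 {Γ : Type} [LinearOrder Γ] (x y z : Γ) : x ≤ top3 x y z := le_max_left _ _

lemma le_top3_2 {Γ : Type} [LinearOrder Γ] (x y z : Γ) : y ≤ top3 x y z :=
  (le_max_left _ _).trans (le_max_right _ _)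

lemma le_top3_3 {Γ : Type} [LinearOrder Γ] (x y z : Γ) : z ≤ top3 x y z :=
  (le_max_right _ _).trans (le_max_right _ _)

lemma top3_rot {Γ : Type} [LinearOrder Γ] (x y z : Γ) : top3 y z x = top3 x y z := by
  unfold top3
  rw [← max_assoc, max_comm]

lemma top3_le {Γ : Type} [LinearOrder Γ] {x y z t : Γ} (hx : x ≤ t) (hy : y ≤ t) (hz : z ≤ t) :
    top3 x y z ≤ t := max_le hx (max_le hy hz)

variable {K : Type} [Field K] [NumberField K]

lemma one_side (G : MvPolynomial (Fin 3) K) (D : ℕ) (hG : G.IsHomogeneous D) (hG0 : G ≠ 0) :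
    ∃ (S : Set (HeightOneSpectrum (𝓞 K))) (P : ℕ), S.Finite ∧ ∀ p : ℕ, p.Prime → P < p →
      ∀ v ∉ S, ∀ a b c : K, a ≠ 0 → b ≠ 0 → c ≠ 0 → a ^ p + b ^ p + c ^ p = 0 →
      MvPolynomial.eval ![a, b, c] G = 0 →
      v.valuation K (a + b) =
        top3 (v.valuation K a) (v.valuation K b) (v.valuation K c) := by
  obtain ⟨S, N, hS, hN⟩ := avoid G D hG hG0
  obtain ⟨B, hB⟩ := unramified K
  refine ⟨S, max B (N + 2), hS, fun p hp hpP v hv a b c ha hb hc h hGz => ?_⟩
  have hpB : B < p := (le_max_left _ _).trans_lt hpP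
  have hpN : N + 2 < p := (le_max_right _ _).trans_lt hpP
  have hp2 : p ≠ 2 := by omega
  have hodd : Odd p := hp.odd_of_ne_two hp2
  set w := v.valuation K with hw
  set M := top3 (w a) (w b) (w c) with hM
  have haM : w a ≤ M := le_top3_1 _ _ _
  have hbM : w b ≤ M := le_top3_2 _ _ _
  have hcM : w c ≤ M := le_top3_3 _ _ _
  have ha0 : 0 < w a := by
    rw [zero_lt_iff]
    exact (Valuation.ne_zero_iff _).2 ha
  have hM0 : 0 < M := ha0.trans_le haM
  refine le_antisymm ((w.map_add _ _).trans (max_le haM hbM)) ?_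
  by_contra hlt
  rw [not_le] at hlt
  -- `c` is small
  have hc1 : w c < M := by
    have h1 : c ^ p = -((∑ i ∈ Finset.range p, a ^ i * (-b) ^ (p - 1 - i)) * (a + b)) := by
      have h2 := Commute.geom_sum₂_mul (Commute.all a (-b)) p
      rw [sub_neg_eq_add] at h2
      rw [h2, hodd.neg_pow]
      linear_combination h
    have h2 : w (∑ i ∈ Finset.range p, a ^ i * (-b) ^ (p - 1 - i)) ≤ M ^ (p - 1) := by
      refine w.map_sum_le fun i hi => ?_
      rw [Finset.mem_range] at hi
      rw [map_mul, map_pow, map_pow, Valuation.map_neg]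
      calc w a ^ i * w b ^ (p - 1 - i) ≤ M ^ i * M ^ (p - 1 - i) := by gcongr
        _ = M ^ (p - 1) := by
          rw [← pow_add]
          congr 1
          omega
    have h3 : w c ^ p < M ^ p := by
      rw [← map_pow, h1, Valuation.map_neg, map_mul]
      calc _ ≤ M ^ (p - 1) * w (a + b) := by gcongr
        _ < M ^ (p - 1) * M := by
          exact mul_lt_mul_of_pos_left hlt (pow_pos hM0 _)
        _ = M ^ p := by
          rw [← pow_succ]
          congr 1
          omega
    exact lt_of_pow_lt_pow_left₀ p hM0.le h3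
  have hbM' : w b = M := by
    by_contra h1
    have h2 : w b < M := lt_of_le_of_ne hbM h1
    have h3 : w a = M := by
      have h4 : M = top3 (w a) (w b) (w c) := hM
      unfold top3 at h4
      rcases max_choice (w a) (max (w b) (w c)) with h5 | h5
      · rw [h5] at h4
        exact h4.symm
      · rw [h5] at h4
        rcases max_choice (w b) (w c) with h6 | h6
        · rw [h6] at h4
          exact absurd h4.symm h1
        · rw [h6] at h4
          exact absurd h4.symm hc1.ne
    have h4 : w (a + b) = w a := Valuation.map_add_eq_of_lt_left _ (by rw [h3]; exact h2)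
    rw [h4, h3] at hlt
    exact lt_irrefl _ hlt
  have hwb0 : 0 < w b := by
    rw [hbM']
    exact hM0
  have h1 : (a / b) ^ p + 1 + (c / b) ^ p = 0 := by
    rw [div_pow, div_pow]
    have : b ^ p ≠ 0 := pow_ne_zero _ hb
    field_simp
    linear_combination h
  have h2 : w (a / b + 1) < 1 := by
    have h3 : a / b + 1 = (a + b) / b := by
      field_simp
    rw [h3, map_div₀, div_lt_one₀ hwb0, hbM']
    exact hlt
  obtain ⟨h3, h4⟩ := near w p hp hp2 (hB p hp hpB v) (valuation_natCast K v p) (a / b) (c / b)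
    (div_ne_zero hc hb) h1 h2
  have h5 : a / b + 1 ≠ 0 := by
    intro h6
    have h7 : a = -b := by
      field_simp at h6
      linear_combination h6
    rw [h7, hodd.neg_pow] at h
    have h8 : c ^ p = 0 := by linear_combination h
    exact hc (pow_eq_zero_iff (by omega) |>.1 h8)
  refine hN v hv (a / b + 1) (c / b) h5 (div_ne_zero hc hb) h3 (h4.trans ?_) ?_
  · exact pow_le_pow_right_of_le_one' h3.le (by omega)
  · rw [add_sub_cancel_right]
    have h6 := eval_smul hG b (a / b) 1 (c / b)
    rw [mul_div_cancel₀ _ hb, mul_one, mul_div_cancel₀ _ hb, hGz] at h6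
    exact (mul_eq_zero.1 h6.symm).resolve_left (pow_ne_zero _ hb)

/-- the three sums of two coordinates have maximal absolute value outside of `S` -/
def Good (S : Set (HeightOneSpectrum (𝓞 K))) (a b c : K) : Prop :=
  ∀ v ∉ S, v.valuation K (a + b) = top3 (v.valuation K a) (v.valuation K b) (v.valuation K c) ∧
    v.valuation K (b + c) = top3 (v.valuation K a) (v.valuation K b) (v.valuation K c) ∧
    v.valuation K (c + a) = top3 (v.valuation K a) (v.valuation K b) (v.valuation K c)

theorem stepA (G : MvPolynomial (Fin 3) K) (D : ℕ) (hG : G.IsHomogeneous D) (hG0 : G ≠ 0) :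
    ∃ (S : Set (HeightOneSpectrum (𝓞 K))) (P : ℕ), S.Finite ∧ ∀ p : ℕ, p.Prime → P < p →
      ∀ a b c : K, a ≠ 0 → b ≠ 0 → c ≠ 0 → a ^ p + b ^ p + c ^ p = 0 →
      MvPolynomial.eval ![a, b, c] G = 0 → Good S a b c := by
  -- the cyclic permutations of `G`
  have hinj : ∀ σ : Equiv.Perm (Fin 3), Function.Injective σ := fun σ => σ.injective
  let σ : Equiv.Perm (Fin 3) := finRotate 3
  have hne : ∀ τ : Equiv.Perm (Fin 3), MvPolynomial.rename τ G ≠ 0 := by
    intro τ h
    exact hG0 (MvPolynomial.rename_injective τ τ.injective (by rw [h, map_zero]))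
  obtain ⟨S1, P1, hS1, h1⟩ := one_side G D hG hG0
  obtain ⟨S2, P2, hS2, h2⟩ := one_side (MvPolynomial.rename (σ⁻¹ : Equiv.Perm (Fin 3)) G) D
    hG.rename_isHomogeneous (hne _)
  obtain ⟨S3, P3, hS3, h3⟩ := one_side (MvPolynomial.rename σ G) D
    hG.rename_isHomogeneous (hne _)
  refine ⟨S1 ∪ S2 ∪ S3, max P1 (max P2 P3), (hS1.union hS2).union hS3,
    fun p hp hP a b c ha hb hc h hz v hv => ?_⟩
  simp only [Set.mem_union, not_or] at hv
  obtain ⟨⟨hv1, hv2⟩, hv3⟩ := hv
  have hP1 : P1 < p := (le_max_left _ _).trans_lt hP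
  have hP2 : P2 < p := ((le_max_left _ _).trans (le_max_right _ _)).trans_lt hP
  have hP3 : P3 < p := ((le_max_right _ _).trans (le_max_right _ _)).trans_lt hP
  have e2 : ![b, c, a] ∘ (σ⁻¹ : Equiv.Perm (Fin 3)) = ![a, b, c] := by
    funext i
    fin_cases i <;> rfl
  have e3 : ![c, a, b] ∘ σ = ![a, b, c] := by
    funext i
    fin_cases i <;> rfl
  refine ⟨h1 p hp hP1 v hv1 a b c ha hb hc h hz, ?_, ?_⟩
  · rw [h2 p hp hP2 v hv2 b c a hb hc ha (by linear_combination h) (by
      rw [MvPolynomial.eval_rename, e2]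
      exact hz), top3_rot]
  · rw [h3 p hp hP3 v hv3 c a b hc ha hb (by linear_combination h) (by
      rw [MvPolynomial.eval_rename, e3]
      exact hz), ← top3_rot]

end Pool.Agent.H577.GS
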