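import Pool.Agent.H577.GS.StepA
import Pool.Agent.H577.GS.Arch
import Pool.Agent.H577.GS.Lim

set_option autoImplicit false

/-! # Fermat's equation and binomial relations between the sums of two coordinates -/

namespace Pool.Agent.H577.GS

open NumberField IsDedekindDomain WithZero Filter

variable {K : Type} [Field K] [NumberField K]

lemma val_int (v : HeightOneSpectrum (𝓞 K)) (x : K) (hx : IsIntegral ℤ x) :
    v.valuation K x ≤ 1 := by
  have h := v.valuation_le_one (K := K) (⟨x, hx⟩ : 𝓞 K)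
  exact h

lemma exists_den (ρ : K) : ∃ N : ℕ, 0 < N ∧ ∀ v : HeightOneSpectrum (𝓞 K),
    v.valuation K (N : K) * v.valuation K ρ ≤ 1 := by
  obtain ⟨y, hy, hint⟩ := exists_integral_multiples ℤ ℚ ({ρ} : Finset K)
  refine ⟨y.natAbs, Int.natAbs_pos.2 hy, fun v => ?_⟩
  have h1 := val_int v _ (hint ρ (by simp))
  rw [zsmul_eq_mul, map_mul] at h1
  have h2 : v.valuation K ((y.natAbs : ℕ) : K) = v.valuation K (y : K) := by
    rcases Int.natAbs_eq y with h | h
    · conv_rhs => rw [h]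
      simp
    · conv_rhs => rw [h]
      simp [Valuation.map_neg]
  rw [h2]
  exact h1

omit [NumberField K] in
/-- nonzero sums -/
lemma sum_ne (p : ℕ) (hp : Odd p) (a b c : K) (hc : c ≠ 0)
    (h : a ^ p + b ^ p + c ^ p = 0) : a + b ≠ 0 := by
  intro h1
  have h2 : a = -b := by linear_combination h1
  rw [h2, hp.neg_pow] at h
  have h3 : c ^ p = 0 := by linear_combination h
  exact hc (pow_eq_zero_iff hp.pos.ne' |>.1 h3)

omit [NumberField K] in
lemma eqUV (p : ℕ) (a b c : K) (hw : c + a ≠ 0) (h : a ^ p + b ^ p + c ^ p = 0) :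
    ((a + b) / (c + a) + 1 - (b + c) / (c + a)) ^ p +
      ((a + b) / (c + a) + (b + c) / (c + a) - 1) ^ p +
      ((b + c) / (c + a) + 1 - (a + b) / (c + a)) ^ p = 0 := by
  have e1 : (a + b) / (c + a) + 1 - (b + c) / (c + a) = 2 / (c + a) * a := by
    field_simp
    ring
  have e2 : (a + b) / (c + a) + (b + c) / (c + a) - 1 = 2 / (c + a) * b := by
    field_simp
    ring
  have e3 : (b + c) / (c + a) + 1 - (a + b) / (c + a) = 2 / (c + a) * c := by
    field_simp
    ring
  rw [e1, e2, e3, mul_pow, mul_pow, mul_pow, ← mul_add, ← mul_add, h, mul_zero]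

/-- no strict domination, in the coordinates `U`, `V` -/
lemma noDomUV (v : HeightOneSpectrum (𝓞 K)) (p : ℕ) (hp : Odd p) (a b c : K) (hw : c + a ≠ 0)
    (h : a ^ p + b ^ p + c ^ p = 0) :
    (1 < v.valuation K ((a + b) / (c + a)) →
      v.valuation K ((a + b) / (c + a)) ≤ v.valuation K ((b + c) / (c + a))) ∧
    (1 < v.valuation K ((b + c) / (c + a)) →
      v.valuation K ((b + c) / (c + a)) ≤ v.valuation K ((a + b) / (c + a))) := by
  have hw0 : 0 < v.valuation K (c + a) := by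
    rw [zero_lt_iff]
    exact (Valuation.ne_zero_iff _).2 hw
  constructor
  · intro h1
    by_contra h2
    rw [not_le, map_div₀, map_div₀, div_lt_div_iff_of_pos_right hw0] at h2
    rw [map_div₀, one_lt_div₀ hw0] at h1
    exact noDom _ p hp a b c h h2 h1
  · intro h1
    by_contra h2
    rw [not_le, map_div₀, map_div₀, div_lt_div_iff_of_pos_right hw0] at h2
    rw [map_div₀, one_lt_div₀ hw0] at h1
    exact noDom _ p hp b c a (by linear_combination h) h1 h2

/-- the places above `p` are outside of a finite set for large `p` -/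
lemma large (S : Set (HeightOneSpectrum (𝓞 K))) (hS : S.Finite) :
    ∃ B : ℕ, ∀ p : ℕ, p.Prime → B < p → ∀ v : HeightOneSpectrum (𝓞 K),
      v.valuation K (p : K) < 1 → v ∉ S := by
  classical
  obtain ⟨B, hB⟩ : ∃ B : ℕ, ∀ v ∈ S, Ideal.absNorm v.asIdeal ≤ B := by
    refine ⟨∑ v ∈ hS.toFinset, Ideal.absNorm v.asIdeal, fun v hv => ?_⟩
    exact Finset.single_le_sum (f := fun v : HeightOneSpectrum (𝓞 K) => Ideal.absNorm v.asIdeal)
      (fun _ _ => Nat.zero_le _) (hS.mem_toFinset.2 hv)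
  refine ⟨B, fun p hp hBp v hv hvS => ?_⟩
  have h1 : (p : 𝓞 K) ∈ v.asIdeal := by
    rw [← v.valuation_lt_one_iff_mem (K := K)]
    simpa using hv
  have h2 : p ∣ Ideal.absNorm v.asIdeal := by
    by_contra h10
    have h11 : Nat.Coprime p (Ideal.absNorm v.asIdeal) := (Nat.Prime.coprime_iff_not_dvd hp).2 h10
    have h12 : IsCoprime ((p : ℕ) : ℤ) ((Ideal.absNorm v.asIdeal : ℕ) : ℤ) :=
      Nat.isCoprime_iff_coprime.2 h11
    obtain ⟨a, b, hab⟩ := h12
    have h13 : (1 : 𝓞 K) ∈ v.asIdeal := by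
      have h14 : ((a * p + b * Ideal.absNorm v.asIdeal : ℤ) : 𝓞 K) = 1 := by
        rw [hab]
        simp
      rw [← h14]
      push_cast
      exact Ideal.add_mem _ (Ideal.mul_mem_left _ _ h1)
        (Ideal.mul_mem_left _ _ (Ideal.absNorm_mem _))
    exact v.isPrime.ne_top ((Ideal.eq_top_iff_one _).2 h13)
  have h3 : 0 < Ideal.absNorm v.asIdeal := by
    rw [Nat.pos_iff_ne_zero, Ne, Ideal.absNorm_eq_zero_iff]
    exact v.ne_bot
  exact absurd ((Nat.le_of_dvd h3 h2).trans (hB v hvS)) (not_le.2 hBp)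

/-- the sum divided by `p` is almost integral -/
lemma integral_quot (S : Set (HeightOneSpectrum (𝓞 K))) (hS : S.Finite) :
    ∃ B : ℕ, ∀ p : ℕ, p.Prime → B < p → ∀ a b c : K, a ≠ 0 → b ≠ 0 → c ≠ 0 →
      a ^ p + b ^ p + c ^ p = 0 → Good S a b c → ∀ (ρ : K) (N : ℕ),
      (∀ v : HeightOneSpectrum (𝓞 K), v.valuation K (N : K) * v.valuation K ρ ≤ 1) →
      (∀ v : HeightOneSpectrum (𝓞 K),
        v.valuation K ((a + b) / (c + a)) ≤ max 1 (v.valuation K ρ) ∧
        v.valuation K ((b + c) / (c + a)) ≤ max 1 (v.valuation K ρ)) →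
      ∃ m : 𝓞 K, (m : K) = N * ((a + b) / (c + a) + (b + c) / (c + a) + 1) / p := by
  obtain ⟨B1, hB1⟩ := large S hS
  obtain ⟨B2, hB2⟩ := unramified K
  refine ⟨max 2 (max B1 B2), fun p hp hpB a b c ha hb hc h hG ρ N hN hUV => ?_⟩
  have hp2 : 2 < p := (le_max_left _ _).trans_lt hpB
  have hpB1 : B1 < p := ((le_max_left _ _).trans (le_max_right _ _)).trans_lt hpB
  have hpB2 : B2 < p := ((le_max_right _ _).trans (le_max_right _ _)).trans_lt hpB
  have hodd : Odd p := hp.odd_of_ne_two (by omega)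
  have hw : c + a ≠ 0 := sum_ne p hodd c a b hb (by linear_combination h)
  have hp0 : (p : K) ≠ 0 := by exact_mod_cast hp.ne_zero
  have key : ∀ v : HeightOneSpectrum (𝓞 K),
      v.valuation K (N * ((a + b) / (c + a) + (b + c) / (c + a) + 1) / p) ≤ 1 := by
    intro v
    have hvp0 : 0 < v.valuation K (p : K) := by
      rw [zero_lt_iff]
      exact (Valuation.ne_zero_iff _).2 hp0
    rw [map_div₀, div_le_one₀ hvp0, map_mul]
    have hvN := valuation_natCast K v N
    rcases (valuation_natCast K v p).lt_or_eq with h1 | h1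
    · -- above `p`
      have hvS := hB1 p hp hpB1 v h1
      obtain ⟨-, -, h2⟩ := hG v hvS
      have hw0 : 0 < v.valuation K (c + a) := by
        rw [zero_lt_iff]
        exact (Valuation.ne_zero_iff _).2 hw
      have hle : ∀ x : K, v.valuation K x ≤ top3 (v.valuation K a) (v.valuation K b)
          (v.valuation K c) → v.valuation K (x / (c + a)) ≤ 1 := by
        intro x hx
        rw [map_div₀, div_le_one₀ hw0, h2]
        exact hx
      have h3 := sum_le (v.valuation K) p hp (hB2 p hp hpB2 v) (a / (c + a)) (b / (c + a))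
        (c / (c + a)) (hle a (le_top3_1 _ _ _)) (hle b (le_top3_2 _ _ _)) (hle c (le_top3_3 _ _ _))
        (by
          rw [div_pow, div_pow, div_pow, ← add_div, ← add_div, h, zero_div]) h1
      have h4 : (a + b) / (c + a) + (b + c) / (c + a) + 1 =
          ((2 : ℕ) : K) * (a / (c + a) + b / (c + a) + c / (c + a)) := by
        field_simp
        push_cast
        ring
      rw [h4, map_mul]
      calc v.valuation K (N : K) * (v.valuation K ((2 : ℕ) : K) *
            v.valuation K (a / (c + a) + b / (c + a) + c / (c + a))) ≤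
            1 * (1 * v.valuation K (p : K)) := by
            gcongr
            exact valuation_natCast K v 2
        _ = v.valuation K (p : K) := by rw [one_mul, one_mul]
    · rw [h1]
      have h2 : v.valuation K ((a + b) / (c + a) + (b + c) / (c + a) + 1) ≤
          max 1 (v.valuation K ρ) := by
        refine (Valuation.map_add _ _ _).trans (max_le ?_ (by simp))
        exact (Valuation.map_add _ _ _).trans (max_le (hUV v).1 (hUV v).2)
      calc v.valuation K (N : K) * _ ≤ v.valuation K (N : K) * max 1 (v.valuation K ρ) := by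
            gcongr
        _ ≤ 1 := by
          rcases max_choice 1 (v.valuation K ρ) with h5 | h5
          · rw [h5, mul_one]
            exact hvN
          · rw [h5]
            exact hN v
  obtain ⟨m, hm⟩ := HeightOneSpectrum.mem_integers_of_valuation_le_one K _ key
  exact ⟨m, hm⟩

/-- an integer of `K` with small conjugates is zero -/
lemma eq_zero_of_small (m : 𝓞 K) (h : ∀ σ : K →+* ℂ, ‖σ (m : K)‖ < 1) : m = 0 := by
  by_contra hm
  obtain ⟨w⟩ : Nonempty (InfinitePlace K) := inferInstance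
  have h1 : 1 ≤ w m := InfinitePlace.one_le_of_lt_one hm (fun z _ => by
    rw [← InfinitePlace.norm_embedding_eq]
    exact h _)
  rw [← InfinitePlace.norm_embedding_eq] at h1
  exact absurd (h w.embedding) (not_lt.2 h1)

/-- a relation with three nonzero exponents -/
theorem case1 (S : Set (HeightOneSpectrum (𝓞 K))) (hS : S.Finite) (k l : ℕ) (hk : 1 ≤ k)
    (hl : 1 ≤ l) (ρ : K) (hρ : ρ ≠ 0) :
    ∀ᶠ p : ℕ in atTop, p.Prime → ∀ a b c : K, a ≠ 0 → b ≠ 0 → c ≠ 0 →
      a ^ p + b ^ p + c ^ p = 0 → Good S a b c →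
      (a + b) ^ k * (b + c) ^ l = ρ * (c + a) ^ (k + l) → a + b + c = 0 := by
  classical
  obtain ⟨N, hN0, hN⟩ := exists_den ρ
  obtain ⟨B1, hB1⟩ := integral_quot S hS
  have hN0' : (0 : ℝ) < N := by exact_mod_cast hN0
  set ε : ℝ := 1 / (4 * N) with hε
  have hε0 : 0 < ε := by positivity
  have hσ : ∀ σ : K →+* ℂ, 0 < ‖σ ρ‖ := fun σ => by
    rw [norm_pos_iff]
    exact (map_ne_zero σ).2 hρ
  choose P1 hP1 using fun σ : K →+* ℂ => arch1 k l hk hl ‖σ ρ‖ ε (hσ σ) hε0
  choose P2 hP2 using fun σ : K →+* ℂ => arch1 l k hl hk ‖σ ρ‖ ε (hσ σ) hε0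
  have ev1 : ∀ᶠ p : ℕ in atTop, ∀ σ : K →+* ℂ, P1 σ < p :=
    eventually_all.2 fun σ => eventually_gt_atTop _
  have ev2 : ∀ᶠ p : ℕ in atTop, ∀ σ : K →+* ℂ, P2 σ < p :=
    eventually_all.2 fun σ => eventually_gt_atTop _
  filter_upwards [ev1, ev2, eventually_gt_atTop B1, eventually_gt_atTop 2,
    eventually_gt_atTop (4 * N)] with p hp1 hp2 hpB hp3 hp4 hp a b c ha hb hc h hG hrel
  have hodd : Odd p := hp.odd_of_ne_two (by omega)
  have hw : c + a ≠ 0 := sum_ne p hodd c a b hb (by linear_combination h)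
  set U := (a + b) / (c + a) with hU
  set V := (b + c) / (c + a) with hV
  have hUV : U ^ k * V ^ l = ρ := by
    rw [hU, hV, div_pow, div_pow, div_mul_div_comm, hrel, ← pow_add, mul_div_assoc,
      div_self (pow_ne_zero _ hw), mul_one]
  have heq := eqUV p a b c hw h
  rw [← hU, ← hV] at heq
  -- the finite places
  have hfin : ∀ v : HeightOneSpectrum (𝓞 K), v.valuation K U ≤ max 1 (v.valuation K ρ) ∧
      v.valuation K V ≤ max 1 (v.valuation K ρ) := by
    intro v
    have hdom := noDomUV v p hodd a b c hw h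
    rw [← hU, ← hV] at hdom
    have hval : v.valuation K U ^ k * v.valuation K V ^ l = v.valuation K ρ := by
      rw [← map_pow, ← map_pow, ← map_mul, hUV]
    constructor
    · by_contra h1
      rw [not_le, max_lt_iff] at h1
      obtain ⟨h1, h2⟩ := h1
      have h3 := hdom.1 h1
      have h4 : v.valuation K U ≤ v.valuation K ρ := by
        rw [← hval]
        calc v.valuation K U = v.valuation K U * 1 := (mul_one _).symm
          _ ≤ v.valuation K U ^ k * v.valuation K V ^ l := by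
            gcongr
            · exact le_self_pow₀ h1.le (by omega)
            · exact one_le_pow₀ (h1.le.trans h3)
      exact absurd h4 (not_le.2 h2)
    · by_contra h1
      rw [not_le, max_lt_iff] at h1
      obtain ⟨h1, h2⟩ := h1
      have h3 := hdom.2 h1
      have h4 : v.valuation K V ≤ v.valuation K ρ := by
        rw [← hval]
        calc v.valuation K V = 1 * v.valuation K V := (one_mul _).symm
          _ ≤ v.valuation K U ^ k * v.valuation K V ^ l := by
            gcongr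
            · exact one_le_pow₀ (h1.le.trans h3)
            · exact le_self_pow₀ h1.le (by omega)
      exact absurd h4 (not_le.2 h2)
  obtain ⟨m, hm⟩ := hB1 p hp hpB a b c ha hb hc h hG ρ N hN hfin
  rw [← hU, ← hV] at hm
  have hp0 : (0 : ℝ) < p := by exact_mod_cast hp.pos
  have hm0 : m = 0 := by
    apply eq_zero_of_small
    intro σ
    have e1 : ‖σ U‖ ^ k * ‖σ V‖ ^ l = ‖σ ρ‖ := by
      rw [← norm_pow, ← norm_pow, ← norm_mul, ← map_pow, ← map_pow, ← map_mul, hUV]
    have e2 : (σ U + 1 - σ V) ^ p + (σ U + σ V - 1) ^ p + (σ V + 1 - σ U) ^ p = 0 := by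
      have := congrArg σ heq
      simpa using this
    have b1 := hP1 σ p (hp1 σ) hodd (σ U) (σ V) e1 e2
    have b2 := hP2 σ p (hp2 σ) hodd (σ V) (σ U) (by rw [mul_comm]; exact e1)
      (by linear_combination e2)
    rw [hm, map_div₀, map_mul, map_add, map_add, map_one, map_natCast, map_natCast, norm_div,
      norm_mul, Complex.norm_natCast, Complex.norm_natCast, div_lt_one hp0]
    have b3 : ‖σ U + σ V + 1‖ ≤ 2 * (ε * p) + 1 := by
      calc ‖σ U + σ V + 1‖ ≤ ‖σ U‖ + ‖σ V‖ + ‖(1 : ℂ)‖ :=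
            (norm_add_le _ _).trans (by gcongr; exact norm_add_le _ _)
        _ ≤ _ := by
          rw [norm_one]
          linarith
    have hp4' : (4 : ℝ) * N < p := by exact_mod_cast hp4
    calc (N : ℝ) * ‖σ U + σ V + 1‖ ≤ N * (2 * (ε * p) + 1) := by gcongr
      _ = p / 2 + N := by
        rw [hε]
        field_simp
        ring
      _ < p := by linarith
  rw [hm0] at hm
  have hN0'' : (N : K) ≠ 0 := by exact_mod_cast hN0.ne'
  have hp0' : (p : K) ≠ 0 := by exact_mod_cast hp.ne_zero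
  have h1 : U + V + 1 = 0 := by
    have h2 : (N : K) * (U + V + 1) / p = 0 := by
      rw [← hm]
      simp
    rw [div_eq_zero_iff, mul_eq_zero] at h2
    rcases h2 with (h2 | h2) | h2
    · exact absurd h2 hN0''
    · exact h2
    · exact absurd h2 hp0'
  have h2 : U + V + 1 = 2 * (a + b + c) / (c + a) := by
    rw [hU, hV]
    field_simp
    ring
  rw [h2, div_eq_zero_iff, mul_eq_zero] at h1
  rcases h1 with (h1 | h1) | h1
  · exact absurd h1 two_ne_zero
  · exact h1
  · exact absurd h1 hw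

/-- a constant ratio -/
theorem case2 (S : Set (HeightOneSpectrum (𝓞 K))) (hS : S.Finite) (κ : K) (hκ : κ ≠ 0) :
    ∀ᶠ p : ℕ in atTop, p.Prime → ∀ a b c : K, a ≠ 0 → b ≠ 0 → c ≠ 0 →
      a ^ p + b ^ p + c ^ p = 0 → Good S a b c →
      b + c = κ * (c + a) → a + b + c = 0 := by
  classical
  obtain ⟨N, hN0, hN⟩ := exists_den κ
  obtain ⟨B1, hB1⟩ := integral_quot S hS
  have hN0' : (0 : ℝ) < N := by exact_mod_cast hN0
  have hN0'' : (N : K) ≠ 0 := by exact_mod_cast hN0.ne'
  obtain ⟨σ₀⟩ : Nonempty (K →+* ℂ) := inferInstance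
  set C : ℝ := ∑ σ : K →+* ℂ, (N * (5 * (1 + ‖σ κ‖))) with hC
  have hfinT := Embeddings.finite_of_norm_le K ℂ C
  set T := {x : K | IsIntegral ℤ x ∧ ∀ φ : K →+* ℂ, ‖φ x‖ ≤ C} with hT
  have halg : ∀ x : K, IsAlgebraic ℚ (σ₀ x) := by
    intro x
    have h1 : IsAlgebraic ℚ x := Algebra.IsAlgebraic.isAlgebraic x
    exact h1.algHom σ₀.toRatAlgHom
  have ev1 : ∀ᶠ p : ℕ in atTop, ∀ m ∈ T, m ≠ 0 →
      (p * σ₀ (m / N) - 2 * σ₀ κ) ^ p + (p * σ₀ (m / N) - 2) ^ p ≠
        (p * σ₀ (m / N) - 2 * σ₀ κ - 2) ^ p := by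
    rw [eventually_all_finite hfinT]
    intro m _
    by_cases hm : m = 0
    · exact Eventually.of_forall fun p h => absurd hm h
    · filter_upwards [limit (σ₀ κ) (σ₀ (m / N)) (halg _) (halg _) ((map_ne_zero σ₀).2 hκ)
        ((map_ne_zero σ₀).2 (div_ne_zero hm hN0''))] with p hp _
      exact hp
  filter_upwards [ev1, eventually_gt_atTop B1, eventually_gt_atTop 2] with p hpT hpB hp3 hp
    a b c ha hb hc h hG hrel
  have hodd : Odd p := hp.odd_of_ne_two (by omega)
  have hw : c + a ≠ 0 := sum_ne p hodd c a b hb (by linear_combination h)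
  have hp0 : (0 : ℝ) < p := by exact_mod_cast hp.pos
  have hp0' : (p : K) ≠ 0 := by exact_mod_cast hp.ne_zero
  set U := (a + b) / (c + a) with hU
  set V := (b + c) / (c + a) with hV
  have hVκ : V = κ := by
    rw [hV, hrel, mul_div_assoc, div_self hw, mul_one]
  have heq := eqUV p a b c hw h
  rw [← hU, ← hV] at heq
  have hfin : ∀ v : HeightOneSpectrum (𝓞 K), v.valuation K U ≤ max 1 (v.valuation K κ) ∧
      v.valuation K V ≤ max 1 (v.valuation K κ) := by
    intro v
    have hdom := noDomUV v p hodd a b c hw h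
    rw [← hU, ← hV] at hdom
    rw [hVκ] at hdom ⊢
    refine ⟨?_, le_max_right _ _⟩
    by_contra h1
    rw [not_le, max_lt_iff] at h1
    exact absurd (hdom.1 h1.1) (not_le.2 h1.2)
  obtain ⟨m, hm⟩ := hB1 p hp hpB a b c ha hb hc h hG κ N hN hfin
  rw [← hU, ← hV, hVκ] at hm
  have hmT : (m : K) ∈ T := by
    refine ⟨m.2, fun σ => ?_⟩
    have e2 : (σ U + 1 - σ κ) ^ p + (σ U + σ κ - 1) ^ p + (σ κ + 1 - σ U) ^ p = 0 := by
      have := congrArg σ heq
      rw [hVκ] at this
      simpa using this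
    have b1 := arch2 p hodd (σ κ) (σ U) e2
    have hp1 : (1 : ℝ) ≤ p := by exact_mod_cast hp.one_lt.le
    have hκ0 : 0 ≤ ‖σ κ‖ := norm_nonneg _
    rw [hm, map_div₀, map_mul, map_add, map_add, map_one, map_natCast, map_natCast, norm_div,
      norm_mul, Complex.norm_natCast, Complex.norm_natCast, div_le_iff₀ hp0]
    have b3 : ‖σ U + σ κ + 1‖ ≤ 5 * (1 + ‖σ κ‖) * p := by
      calc ‖σ U + σ κ + 1‖ ≤ ‖σ U‖ + ‖σ κ‖ + ‖(1 : ℂ)‖ :=
            (norm_add_le _ _).trans (by gcongr; exact norm_add_le _ _)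
        _ ≤ 4 * (1 + ‖σ κ‖) * p + (1 + ‖σ κ‖) * 1 := by
          rw [norm_one]
          linarith
        _ ≤ 4 * (1 + ‖σ κ‖) * p + (1 + ‖σ κ‖) * p := by gcongr
        _ = _ := by ring
    have b4 : (N : ℝ) * (5 * (1 + ‖σ κ‖)) ≤ C := by
      rw [hC]
      exact Finset.single_le_sum (f := fun σ : K →+* ℂ => (N : ℝ) * (5 * (1 + ‖σ κ‖)))
        (fun _ _ => by positivity) (Finset.mem_univ σ)
    calc (N : ℝ) * ‖σ U + σ κ + 1‖ ≤ N * (5 * (1 + ‖σ κ‖) * p) := by gcongr
      _ = N * (5 * (1 + ‖σ κ‖)) * p := by ring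
      _ ≤ C * p := by gcongr
  by_contra hne
  have hUV1 : U + κ + 1 ≠ 0 := by
    have h2 : U + κ + 1 = 2 * (a + b + c) / (c + a) := by
      rw [← hVκ, hU, hV]
      field_simp
      ring
    rw [h2]
    exact div_ne_zero (mul_ne_zero two_ne_zero hne) hw
  have hm0 : (m : K) ≠ 0 := by
    rw [hm]
    exact div_ne_zero (mul_ne_zero hN0'' hUV1) hp0'
  refine hpT m hmT hm0 ?_
  have e1 : (p : K) * (m / N) = U + κ + 1 := by
    rw [hm]
    field_simp
  have e1' : (p : ℂ) * σ₀ ((m : K) / N) = σ₀ U + σ₀ κ + 1 := by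
    have := congrArg σ₀ e1
    simpa using this
  have e2 : (σ₀ U + 1 - σ₀ κ) ^ p + (σ₀ U + σ₀ κ - 1) ^ p + (σ₀ κ + 1 - σ₀ U) ^ p = 0 := by
    have := congrArg σ₀ heq
    rw [hVκ] at this
    simpa using this
  rw [e1']
  have f1 : σ₀ U + σ₀ κ + 1 - 2 * σ₀ κ = σ₀ U + 1 - σ₀ κ := by ring
  have f2 : σ₀ U + σ₀ κ + 1 - 2 = σ₀ U + σ₀ κ - 1 := by ring
  have f3 : σ₀ U + σ₀ κ + 1 - 2 * σ₀ κ - 2 = -(σ₀ κ + 1 - σ₀ U) := by ring
  rw [f3, f1, f2, hodd.neg_pow]
  linear_combination e2

end Pool.Agent.H577.GS
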