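import Pool.Agent.H577.GS.StepD
import Pool.Agent.H577.GS.Rel

set_option autoImplicit false

/-! # Asymptotic Fermat on a fixed curve: the assembly -/

namespace Pool.Agent.H577.GS

open NumberField IsDedekindDomain WithZero Filter

variable {K : Type} [Field K] [NumberField K]

lemma top3_swap {Γ : Type} [LinearOrder Γ] (x y z : Γ) : top3 y x z = top3 x y z := by
  unfold top3
  rw [max_left_comm]

lemma Good.rot {S : Set (HeightOneSpectrum (𝓞 K))} {a b c : K} (h : Good S a b c) :
    Good S b c a := by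
  intro v hv
  obtain ⟨h1, h2, h3⟩ := h v hv
  rw [top3_rot]
  exact ⟨h2, h3, h1⟩

lemma Good.swap {S : Set (HeightOneSpectrum (𝓞 K))} {a b c : K} (h : Good S a b c) :
    Good S b a c := by
  intro v hv
  obtain ⟨h1, h2, h3⟩ := h v hv
  rw [top3_swap]
  refine ⟨by rw [add_comm]; exact h1, by rw [add_comm]; exact h3, by rw [add_comm]; exact h2⟩

/-- the equation with the exponent `p` implies that the sum vanishes -/
def Sol (p : ℕ) (a b c : K) : Prop := a ≠ 0 ∧ b ≠ 0 ∧ c ≠ 0 ∧ a ^ p + b ^ p + c ^ p = 0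

omit [NumberField K] in
lemma Sol.rot {p : ℕ} {a b c : K} (h : Sol p a b c) : Sol p b c a :=
  ⟨h.2.1, h.2.2.1, h.1, by linear_combination h.2.2.2⟩

omit [NumberField K] in
lemma Sol.swap {p : ℕ} {a b c : K} (h : Sol p a b c) : Sol p b a c :=
  ⟨h.2.1, h.1, h.2.2.1, by linear_combination h.2.2.2⟩

/-- a power of a ratio is constant -/
theorem case2' (S : Set (HeightOneSpectrum (𝓞 K))) (hS : S.Finite) (n : ℕ) (hn : 1 ≤ n) (ρ : K)
    (hρ : ρ ≠ 0) :
    ∀ᶠ p : ℕ in atTop, p.Prime → ∀ a b c : K, Sol p a b c → Good S a b c →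
      (b + c) ^ n = ρ * (c + a) ^ n → a + b + c = 0 := by
  classical
  have hfin : {κ : K | κ ^ n = ρ}.Finite := by
    refine (Polynomial.nthRootsFinset n ρ).finite_toSet.subset fun κ hκ => ?_
    rw [Finset.mem_coe, Polynomial.mem_nthRootsFinset (by omega)]
    exact hκ
  have ev : ∀ᶠ p : ℕ in atTop, ∀ κ ∈ {κ : K | κ ^ n = ρ}, p.Prime → ∀ a b c : K, a ≠ 0 →
      b ≠ 0 → c ≠ 0 → a ^ p + b ^ p + c ^ p = 0 → Good S a b c →
      b + c = κ * (c + a) → a + b + c = 0 := by
    rw [eventually_all_finite hfin]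
    intro κ hκ
    refine case2 S hS κ ?_
    rintro rfl
    rw [Set.mem_ofPred_eq, zero_pow (by omega)] at hκ
    exact hρ hκ.symm
  filter_upwards [ev, eventually_gt_atTop 2] with p hp h2 hpp a b c hs hG hrel
  have hodd : Odd p := hpp.odd_of_ne_two (by omega)
  have hw : c + a ≠ 0 := sum_ne p hodd c a b hs.2.1 (by linear_combination hs.2.2.2)
  refine hp ((b + c) / (c + a)) ?_ hpp a b c hs.1 hs.2.1 hs.2.2.1 hs.2.2.2 hG ?_
  · rw [div_pow, hrel, mul_div_assoc, div_self (pow_ne_zero _ hw), mul_one]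
  · rw [div_mul_cancel₀ _ hw]

theorem case1' (S : Set (HeightOneSpectrum (𝓞 K))) (hS : S.Finite) (k l : ℕ) (hk : 1 ≤ k)
    (hl : 1 ≤ l) (ρ : K) (hρ : ρ ≠ 0) :
    ∀ᶠ p : ℕ in atTop, p.Prime → ∀ a b c : K, Sol p a b c → Good S a b c →
      (a + b) ^ k * (b + c) ^ l = ρ * (c + a) ^ (k + l) → a + b + c = 0 := by
  filter_upwards [case1 S hS k l hk hl ρ hρ] with p hp hpp a b c hs hG hrel
  exact hp hpp a b c hs.1 hs.2.1 hs.2.2.1 hs.2.2.2 hG hrel

/-- `U ^ k = ρ V ^ j` -/
theorem case3 (S : Set (HeightOneSpectrum (𝓞 K))) (hS : S.Finite) (k j : ℕ) (hk : 1 ≤ k)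
    (hj : 1 ≤ j) (ρ : K) (hρ : ρ ≠ 0) :
    ∀ᶠ p : ℕ in atTop, p.Prime → ∀ a b c : K, Sol p a b c → Good S a b c →
      (a + b) ^ k * (c + a) ^ j = ρ * ((b + c) ^ j * (c + a) ^ k) → a + b + c = 0 := by
  rcases lt_trichotomy k j with hkj | hkj | hkj
  · filter_upwards [case1' S hS k (j - k) hk (by omega) ρ hρ, eventually_gt_atTop 2]
      with p hp h2 hpp a b c hs hG hrel
    have hodd : Odd p := hpp.odd_of_ne_two (by omega)
    have hw : c + a ≠ 0 := sum_ne p hodd c a b hs.2.1 (by linear_combination hs.2.2.2)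
    have h1 := hp hpp b a c hs.swap hG.swap (by
      have h3 : (c + a) ^ j = (c + a) ^ (j - k) * (c + a) ^ k := by
        rw [← pow_add]
        congr 1
        omega
      rw [h3] at hrel
      have h4 : k + (j - k) = j := by omega
      rw [h4]
      apply mul_right_cancel₀ (pow_ne_zero k hw)
      rw [add_comm b a, add_comm a c, add_comm c b]
      linear_combination hrel)
    linear_combination h1
  · subst hkj
    filter_upwards [case2' S hS k hk ρ hρ, eventually_gt_atTop 2]
      with p hp h2 hpp a b c hs hG hrel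
    have hodd : Odd p := hpp.odd_of_ne_two (by omega)
    have hw : c + a ≠ 0 := sum_ne p hodd c a b hs.2.1 (by linear_combination hs.2.2.2)
    have h1 := hp hpp c a b hs.rot.rot hG.rot.rot (by
      apply mul_right_cancel₀ (pow_ne_zero k hw)
      linear_combination hrel)
    linear_combination h1
  · filter_upwards [case1' S hS j (k - j) hj (by omega) ρ⁻¹ (inv_ne_zero hρ),
      eventually_gt_atTop 2] with p hp h2 hpp a b c hs hG hrel
    have hodd : Odd p := hpp.odd_of_ne_two (by omega)
    have hw : c + a ≠ 0 := sum_ne p hodd c a b hs.2.1 (by linear_combination hs.2.2.2)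
    have h1 := hp hpp b c a hs.rot hG.rot (by
      have h3 : (c + a) ^ k = (c + a) ^ (k - j) * (c + a) ^ j := by
        rw [← pow_add]
        congr 1
        omega
      rw [h3] at hrel
      have h4 : j + (k - j) = k := by omega
      rw [h4]
      apply mul_right_cancel₀ (pow_ne_zero j hw)
      apply mul_left_cancel₀ hρ
      have h5 : ρ * (ρ⁻¹ * (a + b) ^ k * (c + a) ^ j) = (a + b) ^ k * (c + a) ^ j := by
        rw [mul_assoc, ← mul_assoc ρ, mul_inv_cancel₀ hρ, one_mul]
      rw [h5, hrel]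
      ring)
    linear_combination h1

/-- any relation `U ^ i V ^ j = ρ U ^ i' V ^ j'` -/
theorem case4 (S : Set (HeightOneSpectrum (𝓞 K))) (hS : S.Finite) (i j i' j' : ℕ)
    (hne : i ≠ i' ∨ j ≠ j') (ρ : K) (hρ : ρ ≠ 0) :
    ∀ᶠ p : ℕ in atTop, p.Prime → ∀ a b c : K, Sol p a b c → Good S a b c →
      ((a + b) / (c + a)) ^ i * ((b + c) / (c + a)) ^ j =
        ρ * (((a + b) / (c + a)) ^ i' * ((b + c) / (c + a)) ^ j') → a + b + c = 0 := by
  -- reduction to `i' < i` or `i = i'` and `j' < j`
  wlog hlt : i' < i ∨ (i = i' ∧ j' < j) generalizing i j i' j' ρ with H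
  · have h1 : i < i' ∨ (i' = i ∧ j < j') := by omega
    filter_upwards [H i' j' i j (by omega) ρ⁻¹ (inv_ne_zero hρ) h1] with p hp hpp a b c hs hG hrel
    refine hp hpp a b c hs hG ?_
    rw [hrel, ← mul_assoc, inv_mul_cancel₀ hρ, one_mul]
  rcases hlt with hlt | ⟨rfl, hlt⟩
  · rcases lt_trichotomy j j' with hj | hj | hj
    · filter_upwards [case3 S hS (i - i') (j' - j) (by omega) (by omega) ρ hρ,
        eventually_gt_atTop 2] with p hp h2 hpp a b c hs hG hrel
      have hodd : Odd p := hpp.odd_of_ne_two (by omega)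
      have hw : c + a ≠ 0 := sum_ne p hodd c a b hs.2.1 (by linear_combination hs.2.2.2)
      have hu : a + b ≠ 0 := sum_ne p hodd a b c hs.2.2.1 hs.2.2.2
      have hv : b + c ≠ 0 := sum_ne p hodd b c a hs.1 (by linear_combination hs.2.2.2)
      refine hp hpp a b c hs hG ?_
      set U := (a + b) / (c + a) with hU
      set V := (b + c) / (c + a) with hV
      have hU0 : U ≠ 0 := div_ne_zero hu hw
      have hV0 : V ≠ 0 := div_ne_zero hv hw
      have e1 : U ^ i = U ^ (i - i') * U ^ i' := by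
        rw [← pow_add]
        congr 1
        omega
      have e2 : V ^ j' = V ^ (j' - j) * V ^ j := by
        rw [← pow_add]
        congr 1
        omega
      rw [e1, e2] at hrel
      have h3 : U ^ (i - i') = ρ * V ^ (j' - j) := by
        apply mul_right_cancel₀ (pow_ne_zero i' hU0)
        apply mul_right_cancel₀ (pow_ne_zero j hV0)
        linear_combination hrel
      have e3 : a + b = U * (c + a) := by
        rw [hU, div_mul_cancel₀ _ hw]
      have e4 : b + c = V * (c + a) := by
        rw [hV, div_mul_cancel₀ _ hw]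
      rw [e3, e4, mul_pow, mul_pow, h3]
      ring
    · subst hj
      filter_upwards [case2' S hS (i - i') (by omega) ρ hρ,
        eventually_gt_atTop 2] with p hp h2 hpp a b c hs hG hrel
      have hodd : Odd p := hpp.odd_of_ne_two (by omega)
      have hw : c + a ≠ 0 := sum_ne p hodd c a b hs.2.1 (by linear_combination hs.2.2.2)
      have hu : a + b ≠ 0 := sum_ne p hodd a b c hs.2.2.1 hs.2.2.2
      have hv : b + c ≠ 0 := sum_ne p hodd b c a hs.1 (by linear_combination hs.2.2.2)
      have h1 := hp hpp c b a hs.rot.swap hG.rot.swap (by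
        set U := (a + b) / (c + a) with hU
        set V := (b + c) / (c + a) with hV
        have hU0 : U ≠ 0 := div_ne_zero hu hw
        have hV0 : V ≠ 0 := div_ne_zero hv hw
        have e1 : U ^ i = U ^ (i - i') * U ^ i' := by
          rw [← pow_add]
          congr 1
          omega
        rw [e1] at hrel
        have h3 : U ^ (i - i') = ρ := by
          apply mul_right_cancel₀ (pow_ne_zero i' hU0)
          apply mul_right_cancel₀ (pow_ne_zero j hV0)
          linear_combination hrel
        have e3 : b + a = U * (c + a) := by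
          rw [hU, div_mul_cancel₀ _ hw, add_comm]
        rw [e3, mul_pow, h3, add_comm a c])
      linear_combination h1
    · filter_upwards [case1' S hS (i - i') (j - j') (by omega) (by omega) ρ hρ,
        eventually_gt_atTop 2] with p hp h2 hpp a b c hs hG hrel
      have hodd : Odd p := hpp.odd_of_ne_two (by omega)
      have hw : c + a ≠ 0 := sum_ne p hodd c a b hs.2.1 (by linear_combination hs.2.2.2)
      have hu : a + b ≠ 0 := sum_ne p hodd a b c hs.2.2.1 hs.2.2.2
      have hv : b + c ≠ 0 := sum_ne p hodd b c a hs.1 (by linear_combination hs.2.2.2)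
      refine hp hpp a b c hs hG ?_
      set U := (a + b) / (c + a) with hU
      set V := (b + c) / (c + a) with hV
      have hU0 : U ≠ 0 := div_ne_zero hu hw
      have hV0 : V ≠ 0 := div_ne_zero hv hw
      have e1 : U ^ i = U ^ (i - i') * U ^ i' := by
        rw [← pow_add]
        congr 1
        omega
      have e2 : V ^ j = V ^ (j - j') * V ^ j' := by
        rw [← pow_add]
        congr 1
        omega
      rw [e1, e2] at hrel
      have h3 : U ^ (i - i') * V ^ (j - j') = ρ := by
        apply mul_right_cancel₀ (pow_ne_zero i' hU0)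
        apply mul_right_cancel₀ (pow_ne_zero j' hV0)
        linear_combination hrel
      have e3 : a + b = U * (c + a) := by
        rw [hU, div_mul_cancel₀ _ hw]
      have e4 : b + c = V * (c + a) := by
        rw [hV, div_mul_cancel₀ _ hw]
      rw [e3, e4, mul_pow, mul_pow, pow_add, ← h3]
      ring
  · filter_upwards [case2' S hS (j - j') (by omega) ρ hρ,
      eventually_gt_atTop 2] with p hp h2 hpp a b c hs hG hrel
    have hodd : Odd p := hpp.odd_of_ne_two (by omega)
    have hw : c + a ≠ 0 := sum_ne p hodd c a b hs.2.1 (by linear_combination hs.2.2.2)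
    have hu : a + b ≠ 0 := sum_ne p hodd a b c hs.2.2.1 hs.2.2.2
    have hv : b + c ≠ 0 := sum_ne p hodd b c a hs.1 (by linear_combination hs.2.2.2)
    refine hp hpp a b c hs hG ?_
    set U := (a + b) / (c + a) with hU
    set V := (b + c) / (c + a) with hV
    have hU0 : U ≠ 0 := div_ne_zero hu hw
    have hV0 : V ≠ 0 := div_ne_zero hv hw
    have e2 : V ^ j = V ^ (j - j') * V ^ j' := by
      rw [← pow_add]
      congr 1
      omega
    rw [e2] at hrel
    have h3 : V ^ (j - j') = ρ := by
      apply mul_right_cancel₀ (pow_ne_zero j' hV0)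
      apply mul_right_cancel₀ (pow_ne_zero i hU0)
      linear_combination hrel
    have e4 : b + c = V * (c + a) := by
      rw [hV, div_mul_cancel₀ _ hw]
    rw [e4, mul_pow, h3]

/-- the curve in the coordinates `U`, `V` -/
noncomputable def uvPoly (G : MvPolynomial (Fin 3) K) : MvPolynomial (Fin 2) K :=
  MvPolynomial.aeval ![MvPolynomial.C (1 / 2) * (MvPolynomial.X 0 + 1 - MvPolynomial.X 1),
    MvPolynomial.C (1 / 2) * (MvPolynomial.X 0 + MvPolynomial.X 1 - 1),
    MvPolynomial.C (1 / 2) * (MvPolynomial.X 1 + 1 - MvPolynomial.X 0)] G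

omit [NumberField K] in
lemma eval_uvPoly (G : MvPolynomial (Fin 3) K) (U V : K) :
    MvPolynomial.eval ![U, V] (uvPoly G) =
      MvPolynomial.eval ![1 / 2 * (U + 1 - V), 1 / 2 * (U + V - 1), 1 / 2 * (V + 1 - U)] G := by
  unfold uvPoly
  rw [MvPolynomial.aeval_def, MvPolynomial.algebraMap_eq, MvPolynomial.hom_eval₂,
    MvPolynomial.eval, MvPolynomial.coe_eval₂Hom]
  congr 1
  · ext x
    simp
  · funext i
    fin_cases i <;> simp

lemma uvPoly_ne_zero {G : MvPolynomial (Fin 3) K} {D : ℕ} (hG : G.IsHomogeneous D)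
    (hG0 : G ≠ 0) : uvPoly G ≠ 0 := by
  intro h
  have : Infinite K := Infinite.of_injective (algebraMap ℚ K) (algebraMap ℚ K).injective
  apply hG0
  have h1 : G * (MvPolynomial.X 0 + MvPolynomial.X 2) = 0 := by
    apply MvPolynomial.funext
    intro x
    rw [map_mul, map_zero, map_add, MvPolynomial.eval_X, MvPolynomial.eval_X]
    by_cases hx : x 0 + x 2 = 0
    · rw [hx, mul_zero]
    · have h2 := eval_uvPoly G ((x 0 + x 1) / (x 0 + x 2)) ((x 1 + x 2) / (x 0 + x 2))
      rw [h, map_zero] at h2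
      have h3 := eval_smul hG (x 0 + x 2)
        (1 / 2 * ((x 0 + x 1) / (x 0 + x 2) + 1 - (x 1 + x 2) / (x 0 + x 2)))
        (1 / 2 * ((x 0 + x 1) / (x 0 + x 2) + (x 1 + x 2) / (x 0 + x 2) - 1))
        (1 / 2 * ((x 1 + x 2) / (x 0 + x 2) + 1 - (x 0 + x 1) / (x 0 + x 2)))
      rw [← h2, mul_zero] at h3
      have h4 : ![(x 0 + x 2) * (1 / 2 * ((x 0 + x 1) / (x 0 + x 2) + 1 -
          (x 1 + x 2) / (x 0 + x 2))),
          (x 0 + x 2) * (1 / 2 * ((x 0 + x 1) / (x 0 + x 2) + (x 1 + x 2) / (x 0 + x 2) - 1)),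
          (x 0 + x 2) * (1 / 2 * ((x 1 + x 2) / (x 0 + x 2) + 1 -
          (x 0 + x 1) / (x 0 + x 2)))] = x := by
        funext i
        fin_cases i
        · simp
          field_simp
          ring
        · simp
          field_simp
          ring
        · simp
          field_simp
          ring
      rw [h4] at h3
      rw [h3, zero_mul]
  refine (mul_eq_zero.1 h1).resolve_right ?_
  intro h2
  have h3 := congrArg (MvPolynomial.eval ![(1 : K), 0, 0]) h2
  simp at h3

/-- the solutions on a fixed curve have sum zero -/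
theorem curve_sum (G : MvPolynomial (Fin 3) K) (D : ℕ) (hG : G.IsHomogeneous D) (hG0 : G ≠ 0) :
    ∃ S : Set (HeightOneSpectrum (𝓞 K)), S.Finite ∧
    ∀ᶠ p : ℕ in atTop, p.Prime → ∀ a b c : K, Sol p a b c →
      MvPolynomial.eval ![a, b, c] G = 0 → Good S a b c ∧ a + b + c = 0 := by
  classical
  obtain ⟨S, P, hS, hP⟩ := stepA G D hG hG0
  obtain ⟨E, hE1, hE2⟩ := relations K S hS (uvPoly G) (uvPoly_ne_zero hG hG0)
  refine ⟨S, hS, ?_⟩
  have ev : ∀ᶠ p : ℕ in atTop, ∀ e ∈ (E : Set ((Fin 2 →₀ ℕ) × (Fin 2 →₀ ℕ) × K)), e.2.2 ≠ 0 → p.Prime → ∀ a b c : K,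
      Sol p a b c → Good S a b c →
      ((a + b) / (c + a)) ^ (e.1 0) * ((b + c) / (c + a)) ^ (e.1 1) =
        e.2.2 * (((a + b) / (c + a)) ^ (e.2.1 0) * ((b + c) / (c + a)) ^ (e.2.1 1)) →
      a + b + c = 0 := by
    rw [eventually_all_finite E.finite_toSet]
    intro e he
    by_cases h0 : e.2.2 = 0
    · exact Eventually.of_forall fun p h => absurd h0 h
    · have hne : e.1 0 ≠ e.2.1 0 ∨ e.1 1 ≠ e.2.1 1 := by
        by_contra h1
        push Not at h1
        apply hE1 e he
        ext i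
        fin_cases i
        · exact h1.1
        · exact h1.2
      filter_upwards [case4 S hS _ _ _ _ hne e.2.2 h0] with p hp _
      exact hp
  filter_upwards [ev, eventually_gt_atTop P, eventually_gt_atTop 2] with p hp hpP h2 hpp a b c hs hz
  have hodd : Odd p := hpp.odd_of_ne_two (by omega)
  have hgood := hP p hpp hpP a b c hs.1 hs.2.1 hs.2.2.1 hs.2.2.2 hz
  refine ⟨hgood, ?_⟩
  have hw : c + a ≠ 0 := sum_ne p hodd c a b hs.2.1 (by linear_combination hs.2.2.2)
  have hu : a + b ≠ 0 := sum_ne p hodd a b c hs.2.2.1 hs.2.2.2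
  have hv : b + c ≠ 0 := sum_ne p hodd b c a hs.1 (by linear_combination hs.2.2.2)
  have hU0 : (a + b) / (c + a) ≠ 0 := div_ne_zero hu hw
  have hV0 : (b + c) / (c + a) ≠ 0 := div_ne_zero hv hw
  have hunit : ∀ x : K, (hx : x ≠ 0) → (∀ v ∉ S, v.valuation K x = v.valuation K (c + a)) →
      Units.mk0 (x / (c + a)) (div_ne_zero hx hw) ∈ S.unit K := by
    intro x hx hxv v hv
    rw [Units.val_mk0, map_div₀, hxv v hv, div_self]
    exact (Valuation.ne_zero_iff _).2 hw
  obtain ⟨e, he, hrel⟩ := hE2 (Units.mk0 _ hU0) (Units.mk0 _ hV0)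
    (hunit _ hu fun v hv => by rw [(hgood v hv).1, (hgood v hv).2.2])
    (hunit _ hv fun v hv => by rw [(hgood v hv).2.1, (hgood v hv).2.2]) (by
      rw [Units.val_mk0, Units.val_mk0, eval_uvPoly]
      have h3 := eval_smul hG (1 / (c + a)) a b c
      rw [hz, mul_zero] at h3
      rw [← h3]
      congr 1
      have e1 : 1 / 2 * ((a + b) / (c + a) + 1 - (b + c) / (c + a)) = 1 / (c + a) * a := by
        field_simp
        ring
      have e2 : 1 / 2 * ((a + b) / (c + a) + (b + c) / (c + a) - 1) = 1 / (c + a) * b := by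
        field_simp
        ring
      have e3 : 1 / 2 * ((b + c) / (c + a) + 1 - (a + b) / (c + a)) = 1 / (c + a) * c := by
        field_simp
        ring
      rw [e1, e2, e3])
  rw [Units.val_mk0, Units.val_mk0] at hrel
  refine hp e he ?_ hpp a b c hs hgood hrel
  intro h0
  rw [h0, zero_mul] at hrel
  exact absurd hrel (mul_ne_zero (pow_ne_zero _ hU0) (pow_ne_zero _ hV0))

end Pool.Agent.H577.GS
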