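import Pool.Agent.H577.GS.StepE

set_option autoImplicit false

/-! # The solutions with sum zero -/

namespace Pool.Agent.H577.GS

open NumberField IsDedekindDomain WithZero Filter

variable {K : Type} [Field K] [NumberField K]

/-- the unit equation in two unknowns -/
theorem unit_eq (S : Set (HeightOneSpectrum (𝓞 K))) (hS : S.Finite) :
    ∃ R : Finset K, ∀ X Y : Kˣ, X ∈ S.unit K → Y ∈ S.unit K → (X : K) + Y + 1 = 0 →
      (X : K) ∈ R := by
  classical
  obtain ⟨R, hR⟩ := ratios K S hS (ι := Fin 3) (fun _ => 1) (fun _ => one_ne_zero)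
  refine ⟨R ∪ R.image (fun r => r⁻¹) ∪ R.image (fun r => -1 - r) ∪ R.image (fun r => -1 - r⁻¹) ∪
    R.image (fun r => -r / (1 + r)) ∪ R.image (fun r => -1 / (1 + r)), fun X Y hX hY h => ?_⟩
  obtain ⟨i, j, hij, h1⟩ := hR ![X, Y, 1] (by
    intro i
    fin_cases i
    · exact hX
    · exact hY
    · exact one_mem _) (by
    rw [Fin.sum_univ_three]
    simpa using h)
  have hX0 : (X : K) ≠ 0 := X.ne_zero
  have hY0 : (Y : K) ≠ 0 := Y.ne_zero
  have hYX : (Y : K) = -1 - X := by linear_combination h
  simp only [Finset.mem_union, Finset.mem_image]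
  fin_cases i <;> fin_cases j
  · exact absurd rfl hij
  · -- `X / Y`
    simp at h1
    left; right
    refine ⟨(X : K) / Y, h1, ?_⟩
    have h2 : (Y : K) + X ≠ 0 := by
      rw [hYX]
      intro h3
      have : (1 : K) = 0 := by linear_combination -h3
      exact one_ne_zero this
    field_simp
    rw [hYX]
    ring
  · -- `X / 1`
    simp at h1
    left; left; left; left; left
    exact h1
  · -- `Y / X`
    simp at h1
    right
    refine ⟨(Y : K) / X, h1, ?_⟩
    have h2 : (X : K) + Y ≠ 0 := by
      rw [hYX]
      intro h3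
      have : (1 : K) = 0 := by linear_combination -h3
      exact one_ne_zero this
    field_simp
    rw [hYX]
    ring
  · exact absurd rfl hij
  · -- `Y`
    simp at h1
    left; left; left; right
    exact ⟨Y, h1, by rw [hYX]; ring⟩
  · -- `1 / X`
    simp at h1
    left; left; left; left; right
    exact ⟨_, h1, inv_inv _⟩
  · simp at h1
    left; left; right
    exact ⟨_, h1, by rw [inv_inv, hYX]; ring⟩
  · exact absurd rfl hij

/-- two roots of unity and `1` with sum zero -/
lemma roots_unity (x y : K) (m n : ℕ) (hm : 0 < m) (hn : 0 < n) (hx : x ^ m = 1) (hy : y ^ n = 1)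
    (h : x + y + 1 = 0) : x ^ 2 + x + 1 = 0 := by
  obtain ⟨σ⟩ : Nonempty (K →+* ℂ) := inferInstance
  have nx : ‖σ x‖ = 1 := by
    refine Complex.norm_eq_one_of_pow_eq_one (n := m) ?_ hm.ne'
    rw [← map_pow, hx, map_one]
  have ny : ‖σ y‖ = 1 := by
    refine Complex.norm_eq_one_of_pow_eq_one (n := n) ?_ hn.ne'
    rw [← map_pow, hy, map_one]
  have cx : σ x * (starRingEnd ℂ) (σ x) = 1 := by
    rw [Complex.mul_conj, Complex.normSq_eq_norm_sq, nx]
    norm_num
  have cy : σ y * (starRingEnd ℂ) (σ y) = 1 := by
    rw [Complex.mul_conj, Complex.normSq_eq_norm_sq, ny]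
    norm_num
  have h1 : σ x + σ y + 1 = 0 := by
    have := congrArg σ h
    simpa using this
  have h2 : (starRingEnd ℂ) (σ x) + (starRingEnd ℂ) (σ y) + 1 = 0 := by
    have := congrArg (starRingEnd ℂ) h1
    simpa using this
  have h3 : σ x * σ y = 1 := by
    have h4 : σ y + σ x + σ x * σ y = 0 := by
      linear_combination (σ x * σ y) * h2 - σ y * cx - σ x * cy
    linear_combination h4 - h1
  have h5 : σ (x ^ 2 + x + 1) = 0 := by
    rw [map_add, map_add, map_pow, map_one]
    linear_combination (σ x) * h1 - h3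
  exact (map_eq_zero σ).1 h5

/-- solutions with sum zero which are units outside of `S` -/
theorem sum_zero (S : Set (HeightOneSpectrum (𝓞 K))) (hS : S.Finite) :
    ∀ᶠ p : ℕ in atTop, p.Prime → ∀ a b c : K, Sol p a b c → Good S a b c → a + b + c = 0 →
      a ^ 2 + a * b + b ^ 2 = 0 := by
  classical
  obtain ⟨R, hR⟩ := unit_eq (K := K) S hS
  -- elements of `R` which have arbitrarily large powers in `R`
  have ev : ∀ᶠ p : ℕ in atTop, ∀ x ∈ (R : Set K), x ≠ 0 → x ^ p ∈ R → ∃ m, 0 < m ∧ x ^ m = 1 := by
    rw [eventually_all_finite R.finite_toSet]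
    intro x _
    by_cases hx : ∃ m, 0 < m ∧ x ^ m = 1
    · exact Eventually.of_forall fun p _ _ => hx
    · by_cases hx0 : x = 0
      · exact Eventually.of_forall fun p h => absurd hx0 h
      · have hinj : Function.Injective (fun p : ℕ => x ^ p) := by
          intro p q hpq
          by_contra hne
          apply hx
          rcases Nat.lt_or_gt_of_ne hne with h1 | h1
          · refine ⟨q - p, by omega, ?_⟩
            have h2 : x ^ q = x ^ (q - p) * x ^ p := by
              rw [← pow_add]
              congr 1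
              omega
            have h3 : x ^ p = x ^ q := hpq
            apply mul_right_cancel₀ (pow_ne_zero p hx0)
            rw [← h2, one_mul, h3]
          · refine ⟨p - q, by omega, ?_⟩
            have h2 : x ^ p = x ^ (p - q) * x ^ q := by
              rw [← pow_add]
              congr 1
              omega
            have h3 : x ^ p = x ^ q := hpq
            apply mul_right_cancel₀ (pow_ne_zero q hx0)
            rw [← h2, one_mul, h3]
        have hfin : {p : ℕ | x ^ p ∈ R}.Finite := by
          have : {p : ℕ | x ^ p ∈ R} = (fun p : ℕ => x ^ p) ⁻¹' (R : Set K) := rfl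
          rw [this]
          exact R.finite_toSet.preimage hinj.injOn
        obtain ⟨B, hB⟩ := hfin.bddAbove
        filter_upwards [eventually_gt_atTop B] with p hp _ hmem
        exact absurd (hB hmem) (not_le.2 hp)
  filter_upwards [ev] with p hp hpp a b c hs hG hsum
  have ha := hs.1
  have hb := hs.2.1
  have hc := hs.2.2.1
  have hx0 : a / c ≠ 0 := div_ne_zero ha hc
  have hy0 : b / c ≠ 0 := div_ne_zero hb hc
  have e1 : b + c = -a := by linear_combination hsum
  have e2 : a + b = -c := by linear_combination hsum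
  have e3 : c + a = -b := by linear_combination hsum
  have vx : ∀ v ∉ S, v.valuation K (a / c) = 1 := by
    intro v hv
    obtain ⟨h1, h2, h3⟩ := hG v hv
    rw [e2, Valuation.map_neg] at h1
    rw [e1, Valuation.map_neg] at h2
    have h4 : v.valuation K a = v.valuation K c := h2.trans h1.symm
    rw [map_div₀, h4, div_self]
    exact (Valuation.ne_zero_iff _).2 hc
  have vy : ∀ v ∉ S, v.valuation K (b / c) = 1 := by
    intro v hv
    obtain ⟨h1, h2, h3⟩ := hG v hv
    rw [e2, Valuation.map_neg] at h1
    rw [e3, Valuation.map_neg] at h3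
    have h4 : v.valuation K b = v.valuation K c := h3.trans h1.symm
    rw [map_div₀, h4, div_self]
    exact (Valuation.ne_zero_iff _).2 hc
  have hX : Units.mk0 _ hx0 ∈ S.unit K := fun v hv => vx v hv
  have hY : Units.mk0 _ hy0 ∈ S.unit K := fun v hv => vy v hv
  have s1 : a / c + b / c + 1 = 0 := by
    field_simp
    rw [hsum, mul_zero]
  have s2 : (a / c) ^ p + (b / c) ^ p + 1 = 0 := by
    rw [div_pow, div_pow]
    have : c ^ p ≠ 0 := pow_ne_zero _ hc
    field_simp
    rw [hs.2.2.2, mul_zero]
  have m1 : a / c ∈ R := hR _ _ hX hY s1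
  have m2 : b / c ∈ R := hR _ _ hY hX (by
    rw [Units.val_mk0, Units.val_mk0]
    linear_combination s1)
  have m3 : (a / c) ^ p ∈ R := by
    have := hR (Units.mk0 _ hx0 ^ p) (Units.mk0 _ hy0 ^ p) (pow_mem hX p) (pow_mem hY p) (by
      push_cast
      exact s2)
    simpa using this
  have m4 : (b / c) ^ p ∈ R := by
    have := hR (Units.mk0 _ hy0 ^ p) (Units.mk0 _ hx0 ^ p) (pow_mem hY p) (pow_mem hX p) (by
      push_cast
      rw [Units.val_mk0, Units.val_mk0]
      linear_combination s2)
    simpa using this
  obtain ⟨m, hm, hm1⟩ := hp _ m1 hx0 m3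
  obtain ⟨n, hn, hn1⟩ := hp _ m2 hy0 m4
  have h3 := roots_unity (a / c) (b / c) m n hm hn hm1 hn1 s1
  have h4 : a ^ 2 + a * c + c ^ 2 = 0 := by
    field_simp at h3
    linear_combination h3
  have h5 : c = -a - b := by linear_combination hsum
  rw [h5] at h4
  linear_combination h4

end Pool.Agent.H577.GS
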