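import Mathlib

set_option autoImplicit false

/-! # Large primes are unramified -/

namespace Pool.Agent.H577.GS

open NumberField IsDedekindDomain WithZero

variable (K : Type) [Field K] [NumberField K]

lemma le_exp_neg_one {x : ℤᵐ⁰} (hx : x < 1) : x ≤ exp (-1) := by
  rw [← lt_mul_exp_iff_le (by simp), ← exp_add]
  simpa using hx

lemma valuation_natCast (v : HeightOneSpectrum (𝓞 K)) (n : ℕ) :
    v.valuation K (n : K) ≤ 1 := by
  have h := v.valuation_le_one (K := K) (n : 𝓞 K)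
  simpa using h

theorem unramified : ∃ B : ℕ, ∀ p : ℕ, p.Prime → B < p → ∀ v : HeightOneSpectrum (𝓞 K),
    exp (-1) ≤ v.valuation K (p : K) := by
  refine ⟨(discr K).natAbs, fun p hp hB v => ?_⟩
  by_contra h
  rw [not_le] at h
  have h1 : v.valuation K (p : K) ≤ exp (-2) := by
    rw [← lt_mul_exp_iff_le (by simp), ← exp_add]
    exact h
  have h2 : v.valuation K (p : K) = v.intValuation (p : 𝓞 K) := by
    rw [← v.valuation_of_algebraMap (K := K)]
    simp
  rw [h2] at h1
  have h3 : v.asIdeal ^ 2 ∣ Ideal.span {(p : 𝓞 K)} := by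
    rw [← v.intValuation_le_pow_iff_dvd]
    exact_mod_cast h1
  have hpZ : Prime (p : ℤ) := Nat.prime_iff_prime_int.1 hp
  have hmax : (Ideal.span {(p : ℤ)}).IsMaximal :=
    PrincipalIdealRing.isMaximal_of_irreducible hpZ.irreducible
  have h4 : v.asIdeal ^ 2 ∣ (Ideal.span {(p : ℤ)}).map (algebraMap ℤ (𝓞 K)) := by
    rw [Ideal.map_span, Set.image_singleton]
    simpa using h3
  have h5 := pow_sub_one_dvd_differentIdeal (p := Ideal.span {(p : ℤ)}) ℤ v.asIdeal 2 (by
    rw [Ne, Ideal.span_singleton_eq_bot]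
    exact hpZ.ne_zero) h4
  rw [show 2 - 1 = 1 from rfl, pow_one] at h5
  have h6 := Ideal.absNorm_dvd_absNorm_of_le (Ideal.dvd_iff_le.mp h5)
  rw [absNorm_differentIdeal K] at h6
  have h7 : (p : 𝓞 K) ∈ v.asIdeal := by
    have h8 := Ideal.dvd_iff_le.mp h3
    exact Ideal.pow_le_self two_ne_zero (h8 (Ideal.mem_span_singleton_self _))
  have h9 : p ∣ Ideal.absNorm v.asIdeal := by
    by_contra h10
    have h11 : Nat.Coprime p (Ideal.absNorm v.asIdeal) := (Nat.Prime.coprime_iff_not_dvd hp).2 h10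
    have h12 : IsCoprime ((p : ℕ) : ℤ) ((Ideal.absNorm v.asIdeal : ℕ) : ℤ) :=
      Nat.isCoprime_iff_coprime.2 h11
    obtain ⟨a, b, hab⟩ := h12
    have h13 : (1 : 𝓞 K) ∈ v.asIdeal := by
      have h14 : ((a * p + b * Ideal.absNorm v.asIdeal : ℤ) : 𝓞 K) = 1 := by
        rw [hab]
        simp
      rw [← h14]
      push_cast
      exact Ideal.add_mem _ (Ideal.mul_mem_left _ _ h7)
        (Ideal.mul_mem_left _ _ (Ideal.absNorm_mem _))
    exact v.isPrime.ne_top ((Ideal.eq_top_iff_one _).2 h13)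
  have h15 : p ∣ (discr K).natAbs := h9.trans h6
  have h16 : 0 < (discr K).natAbs := Int.natAbs_pos.2 (discr_ne_zero K)
  exact absurd (Nat.le_of_dvd h16 h15) (not_le.2 hB)

end Pool.Agent.H577.GS
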